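import Pool.Agent.H760.MX.Bx
import Pool.Graph.R_pool_sql_team_seeded_3997aac3.Q237.HT.GPX

/-!
# Sums over lattice points in some of the variables

The step function `stN` of `Pool/Agent/H760/MX/Bx.lean` turns the sum over the lattice points of a
circled region into an integral.  If the function is holomorphic, the step function may be removed, up to
an exponentially small error.
-/

set_option autoImplicit false

namespace Pool.Agent.H811.VX

open Finset Filter Topology MeasureTheory
open Pool.Agent.Q99.HT (lo hi S_GPX)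
open Pool.Agent.H760.MX (stN aS stN_sum stN_near stN_meas)

lemma aS_symm {N m : ℕ} (hN : 0 < N) (hm : m ≤ N) : aS N (N - m) = -aS N m := by
  have hN0 : (0 : ℝ) < N := by exact_mod_cast hN
  unfold aS
  rw [Nat.cast_sub hm]
  field_simp
  ring

/-- one variable -/
theorem step1 : ∃ C : ℝ, 0 ≤ C ∧ ∀ N : ℕ, 1 ≤ N → ∀ m : ℕ, 2 * m < N → ∀ (f : ℂ → ℂ) (U : Set ℂ)
    (τ A B : ℝ), IsOpen U → DifferentiableOn ℂ f U → 1 ≤ τ * N → τ ≤ 1 →
    (∀ x ∈ Set.Icc (aS N m) (aS N (N - m)), ∀ t ∈ Set.Icc (-(2 * τ)) (2 * τ),
      (x + t * Complex.I : ℂ) ∈ U) →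
    (∀ x ∈ Set.Icc (aS N m) (aS N (N - m)), ‖f (x + (2 * τ : ℝ) * Complex.I)‖ ≤ A ∧
      ‖f (x - (2 * τ : ℝ) * Complex.I)‖ ≤ A) →
    (∀ t ∈ Set.Icc (-(2 * τ)) (2 * τ), ‖f (aS N m + t * Complex.I)‖ ≤ B ∧
      ‖f (aS N (N - m) + t * Complex.I)‖ ≤ B) →
    ‖(∫ x in Set.Icc (aS N m) (aS N (N - m)), f (stN N x : ℝ)) -
      ∫ x in Set.Icc (aS N m) (aS N (N - m)), f (x : ℝ)‖ ≤
      4 * C * (Real.exp (-(2 * Real.pi * τ * N)) * A + B) := by
  obtain ⟨C, hC, H⟩ := Pool.Agent.Q237.HT.task_GPX
  refine ⟨C, hC, fun N hN m hm f U τ A B hU hf hτ hτ1 hUx hA hB => ?_⟩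
  have hN0 : (0 : ℝ) < N := by exact_mod_cast hN
  have hNc : (N : ℂ) ≠ 0 := by
    have : N ≠ 0 := by omega
    exact_mod_cast this
  have hτ0 : 0 < τ := by
    by_contra h
    have := mul_nonpos_of_nonpos_of_nonneg (not_lt.1 h) hN0.le
    linarith
  have hmN : m ≤ N := by omega
  set cc : ℝ := ((N : ℝ) - 1) / N with hcc
  have hlo : 2 * lo N (m : ℤ) - cc = aS N m := by
    unfold lo aS
    rw [hcc]
    push_cast
    field_simp
    ring
  have hhi : 2 * hi N (((N - 1 - m : ℕ)) : ℤ) - cc = aS N (N - m) := by
    unfold hi aS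
    rw [hcc]
    have e1 : (((N - 1 - m : ℕ) : ℤ) : ℝ) = (N : ℝ) - 1 - m := by
      rw [Int.cast_natCast, Nat.cast_sub (by omega), Nat.cast_sub (by omega)]
      push_cast
      ring
    rw [e1, Nat.cast_sub hmN]
    field_simp
    ring
  set ft : ℂ → ℂ := fun ξ => f (2 * ξ - (cc : ℂ)) with hft
  set V : Set ℂ := (fun ξ : ℂ => 2 * ξ - (cc : ℂ)) ⁻¹' U with hV
  have hVo : IsOpen V := hU.preimage (by fun_prop)
  have hfd : DifferentiableOn ℂ ft V :=
    hf.comp (by fun_prop) fun x hx => hx
  have hmem : ∀ x ∈ Set.Icc (lo N (m : ℤ)) (hi N (((N - 1 - m : ℕ)) : ℤ)),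
      2 * x - cc ∈ Set.Icc (aS N m) (aS N (N - m)) := by
    intro x hx
    rw [← hlo, ← hhi]
    constructor <;> linarith [hx.1, hx.2]
  have e1 : ∀ x t : ℝ, 2 * ((x : ℂ) + t * Complex.I) - (cc : ℂ) =
      ((2 * x - cc : ℝ) : ℂ) + ((2 * t : ℝ) : ℂ) * Complex.I := by
    intro x t
    push_cast
    ring
  have key := H N hN (m : ℤ) (((N - 1 - m : ℕ)) : ℤ) (by omega) ft V τ 0 A B hVo hfd hτ hτ1
    (by rw [abs_zero]; exact hτ0.le)
    (by
      intro x hx t ht
      show 2 * ((x : ℂ) + t * Complex.I) - (cc : ℂ) ∈ U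
      rw [e1]
      exact hUx _ (hmem x hx) _ ⟨by linarith [ht.1], by linarith [ht.2]⟩)
    (by
      intro x hx
      have h1 := hA _ (hmem x hx)
      have e2 : 2 * ((x : ℂ) - τ * Complex.I) - (cc : ℂ) =
          ((2 * x - cc : ℝ) : ℂ) - ((2 * τ : ℝ) : ℂ) * Complex.I := by
        push_cast
        ring
      constructor
      · show ‖f (2 * ((x : ℂ) + τ * Complex.I) - (cc : ℂ))‖ ≤ A
        rw [e1]
        exact h1.1
      · show ‖f (2 * ((x : ℂ) - τ * Complex.I) - (cc : ℂ))‖ ≤ A
        rw [e2]
        exact h1.2)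
    (by
      intro t ht
      have h1 := hB (2 * t) ⟨by linarith [ht.1], by linarith [ht.2]⟩
      constructor
      · show ‖f (2 * ((lo N (m : ℤ) : ℝ) + t * Complex.I) - (cc : ℂ))‖ ≤ B
        rw [e1, hlo]
        exact h1.1
      · show ‖f (2 * ((hi N (((N - 1 - m : ℕ)) : ℤ) : ℝ) + t * Complex.I) - (cc : ℂ))‖ ≤ B
        rw [e1, hhi]
        exact h1.2)
  -- the sum
  have hsum : ∑ y ∈ Icc (m : ℤ) (((N - 1 - m : ℕ)) : ℤ), ft ((y : ℂ) / N) =
      ∑ k ∈ Ico m (N - m), f (((2 * (k : ℝ) + 1 - N) / N : ℝ) : ℂ) := by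
    symm
    refine sum_bij (fun k _ => (k : ℤ)) (fun k hk => ?_) (fun a _ b _ h => by exact_mod_cast h)
      (fun y hy => ?_) fun k _ => ?_
    · rw [mem_Ico] at hk
      rw [mem_Icc]
      omega
    · rw [mem_Icc] at hy
      refine ⟨y.toNat, ?_, ?_⟩
      · rw [mem_Ico]
        omega
      · omega
    · show _ = f (2 * (((k : ℤ) : ℂ) / N) - (cc : ℂ))
      congr 1
      rw [hcc]
      push_cast
      field_simp
      ring
  -- the integral
  have hle : lo N (m : ℤ) ≤ hi N (((N - 1 - m : ℕ)) : ℤ) := by
    have h1 : aS N m ≤ aS N (N - m) := by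
      unfold aS
      rw [Nat.cast_sub hmN]
      refine div_le_div_of_nonneg_right ?_ hN0.le
      have : (2 * m : ℝ) < N := by exact_mod_cast hm
      linarith
    linarith
  have hint : ∫ x in (lo N (m : ℤ))..(hi N (((N - 1 - m : ℕ)) : ℤ)),
      ft (x + ((0 : ℝ) : ℂ) * Complex.I) =
      (1 / 2 : ℂ) * ∫ x in Set.Icc (aS N m) (aS N (N - m)), f (x : ℝ) := by
    have e2 : ∀ x : ℝ, ft (x + ((0 : ℝ) : ℂ) * Complex.I) =
        (fun x : ℝ => f (x : ℂ)) (2 * x - cc) := by
      intro x
      show f (2 * ((x : ℂ) + ((0 : ℝ) : ℂ) * Complex.I) - (cc : ℂ)) = f _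
      congr 1
      push_cast
      ring
    simp only [e2]
    rw [intervalIntegral.integral_comp_mul_sub (fun x : ℝ => f (x : ℂ)) two_ne_zero, hlo, hhi,
      intervalIntegral.integral_of_le (by linarith), integral_Icc_eq_integral_Ioc,
      Complex.real_smul]
    push_cast
    ring
  rw [hsum, hint] at key
  have hst := stN_sum (N := N) hN m (N - m) (by omega) (fun x : ℝ => f (x : ℂ))
  have e3 : (∫ x in Set.Icc (aS N m) (aS N (N - m)), f (stN N x : ℝ)) -
      ∫ x in Set.Icc (aS N m) (aS N (N - m)), f (x : ℝ) =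
      (2 / N : ℂ) * (∑ k ∈ Ico m (N - m), f (((2 * (k : ℝ) + 1 - N) / N : ℝ) : ℂ) -
        N * ((1 / 2 : ℂ) * ∫ x in Set.Icc (aS N m) (aS N (N - m)), f (x : ℝ))) := by
    rw [hst, ← mul_sum]
    field_simp
  rw [e3, norm_mul]
  have e4 : ‖(2 / N : ℂ)‖ = 2 / N := by
    rw [norm_div, Complex.norm_natCast]
    simp
  rw [e4]
  have hA0 : 0 ≤ A := by
    have h1 : aS N m ∈ Set.Icc (aS N m) (aS N (N - m)) := ⟨le_rfl, by linarith⟩
    exact (norm_nonneg _).trans (hA _ h1).1
  have hB0 : 0 ≤ B := (norm_nonneg _).trans (hB 0 ⟨by linarith, by linarith⟩).1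
  have h5 : (((N - 1 - m : ℕ) : ℤ) : ℝ) - ((m : ℤ) : ℝ) + 1 ≤ N := by
    have : (((N - 1 - m : ℕ) : ℤ) : ℝ) = (N : ℝ) - 1 - m := by
      rw [Int.cast_natCast, Nat.cast_sub (by omega), Nat.cast_sub (by omega)]
      push_cast
      ring
    rw [this]
    push_cast
    have : (0 : ℝ) ≤ m := by positivity
    linarith
  have hE0 : 0 ≤ Real.exp (-(2 * Real.pi * τ * N)) * A + B := by positivity
  calc 2 / (N : ℝ) * _ ≤ 2 / N * (C * (N + ((((N - 1 - m : ℕ) : ℤ) : ℝ) - ((m : ℤ) : ℝ) + 1)) *
        (Real.exp (-(2 * Real.pi * τ * N)) * A + B)) :=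
        mul_le_mul_of_nonneg_left key (by positivity)
    _ ≤ 2 / N * (C * (N + N) * (Real.exp (-(2 * Real.pi * τ * N)) * A + B)) := by
        refine mul_le_mul_of_nonneg_left ?_ (by positivity)
        refine mul_le_mul_of_nonneg_right ?_ hE0
        exact mul_le_mul_of_nonneg_left (by linarith) hC
    _ = _ := by
        field_simp
        ring

/-! ### several variables -/

section
variable {ι : Type} [Fintype ι] [DecidableEq ι]

/-- the step function in the variables `M` -/
noncomputable def st (M : Finset ι) (N : ℕ) (x : ι → ℝ) (i : ι) : ℝ :=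
  if i ∈ M then stN N (x i) else x i

/-- the box -/
def Bn (ι : Type) (N m : ℕ) : Set (ι → ℝ) := Set.univ.pi fun _ => Set.Icc (aS N m) (aS N (N - m))

omit [Fintype ι] in
theorem st_meas (M : Finset ι) (N : ℕ) : Measurable (st M N) := by
  refine measurable_pi_iff.2 fun i => ?_
  unfold st
  by_cases h : i ∈ M
  · simp only [if_pos h]
    exact (stN_meas N).comp (measurable_pi_apply i)
  · simp only [if_neg h]
    exact measurable_pi_apply i

omit [Fintype ι] in
theorem st_near (M : Finset ι) {N : ℕ} (hN : 1 ≤ N) (x : ι → ℝ) (i : ι) :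
    |st M N x i - x i| ≤ 1 / N := by
  unfold st
  split_ifs
  · exact stN_near hN _
  · rw [sub_self, abs_zero]
    positivity

omit [Fintype ι] in
theorem st_empty (N : ℕ) (x : ι → ℝ) : st ∅ N x = x := by
  funext i
  unfold st
  simp

/-- one coordinate is inserted -/
def ins (i : ι) (z : ℝ) (y : {j : ι // ¬ j = i} → ℝ) (j : ι) : ℝ :=
  if h : j = i then z else y ⟨j, h⟩

omit [Fintype ι] [DecidableEq ι] in
theorem pi_inst (F1 F2 : Fintype ι) :
    @Measure.pi ι (fun _ => ℝ) F1 _ (fun _ => volume) =
      @Measure.pi ι (fun _ => ℝ) F2 _ (fun _ => volume) := by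
  rw [Subsingleton.elim F1 F2]

theorem mp1 (i : ι) : MeasurePreserving (MeasurableEquiv.piEquivPiSubtypeProd (fun _ : ι => ℝ)
      (fun j => j = i)) volume ((volume : Measure ({j : ι // j = i} → ℝ)).prod
        (volume : Measure ({j : ι // ¬ j = i} → ℝ))) := by
  have h := measurePreserving_piEquivPiSubtypeProd (fun _ : ι => (volume : Measure ℝ))
    (fun j => j = i)
  rw [volume_pi, volume_pi, volume_pi]
  rw [pi_inst (ι := {j : ι // j = i}) _ (Subtype.fintype fun j => j = i)]
  exact h

omit [Fintype ι] [DecidableEq ι] in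
theorem mp2 (i : ι) : MeasurePreserving (MeasurableEquiv.funUnique {j : ι // j = i} ℝ)
    volume volume := by
  exact measurePreserving_funUnique (volume : Measure ℝ) {j : ι // j = i}

/-- the integral over one coordinate first -/
theorem fub (i : ι) (G : (ι → ℝ) → ℂ) (hG : Integrable G) :
    Integrable (fun p : ℝ × ({j : ι // ¬ j = i} → ℝ) => G (ins i p.1 p.2)) ∧
    ∫ x, G x = ∫ y : {j : ι // ¬ j = i} → ℝ, ∫ z : ℝ, G (ins i z y) := by
  have h1 := mp1 i
  have h2 := mp2 i
  have h3 := (h2.prod (MeasurePreserving.id (volume : Measure ({j : ι // ¬ j = i} → ℝ)))).comp h1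
  have h4 : MeasurePreserving (((MeasurableEquiv.piEquivPiSubtypeProd (fun _ : ι => ℝ)
      (fun j => j = i)).trans ((MeasurableEquiv.funUnique {j : ι // j = i} ℝ).prodCongr
        (MeasurableEquiv.refl ({j : ι // ¬ j = i} → ℝ))))) volume
      (volume.prod volume) := h3
  set e := (MeasurableEquiv.piEquivPiSubtypeProd (fun _ : ι => ℝ)
      (fun j => j = i)).trans ((MeasurableEquiv.funUnique {j : ι // j = i} ℝ).prodCongr
        (MeasurableEquiv.refl ({j : ι // ¬ j = i} → ℝ))) with he
  have h5 : ∀ x : ι → ℝ, ins i (e x).1 (e x).2 = x := by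
    intro x
    funext j
    unfold ins
    by_cases h : j = i
    · subst h
      simp [he, MeasurableEquiv.piEquivPiSubtypeProd, MeasurableEquiv.funUnique,
        MeasurableEquiv.prodCongr]
      rfl
    · rw [dif_neg h]
      rfl
  have h6 : Integrable (fun p : ℝ × ({j : ι // ¬ j = i} → ℝ) => G (ins i p.1 p.2))
      (volume.prod volume) := by
    rw [← h4.integrable_comp_emb e.measurableEmbedding]
    refine hG.congr (Eventually.of_forall fun x => ?_)
    show G x = G (ins i (e x).1 (e x).2)
    rw [h5]
  refine ⟨h6, ?_⟩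
  rw [← integral_prod_symm _ h6, ← h4.integral_comp' (f := e)]
  refine integral_congr_ae (Eventually.of_forall fun x => ?_)
  show G x = G (ins i (e x).1 (e x).2)
  rw [h5]

/-- the points near the box -/
def Nb (ι : Type) (N : ℕ) (e τ : ℝ) : Set (ι → ℂ) :=
  {u | ∀ j, |(u j).re| ≤ e + 1 / N ∧ |(u j).im| ≤ 2 * τ}

omit [DecidableEq ι] in
theorem Bn_meas (N m : ℕ) : MeasurableSet (Bn ι N m) :=
  MeasurableSet.univ_pi fun _ => measurableSet_Icc

omit [DecidableEq ι] in
theorem Bn_vol (N m : ℕ) : (volume : Measure (ι → ℝ)) (Bn ι N m) ≠ ⊤ := by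
  unfold Bn
  rw [volume_pi_pi]
  exact (ENNReal.prod_lt_top fun i _ => by rw [Real.volume_Icc]; exact ENNReal.ofReal_lt_top).ne

omit [DecidableEq ι] in
theorem Bn_real {N m : ℕ} (hN : 0 < N) (hm : 2 * m ≤ N) :
    (volume : Measure (ι → ℝ)).real (Bn ι N m) ≤ 2 ^ Fintype.card ι := by
  have hN0 : (0 : ℝ) < N := by exact_mod_cast hN
  unfold Bn
  rw [Measure.real, volume_pi_pi, ENNReal.toReal_prod]
  have e : ∀ i ∈ (univ : Finset ι), (volume (Set.Icc (aS N m) (aS N (N - m)))).toReal ≤ 2 := by
    intro i _
    rw [Real.volume_Icc]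
    have h1 : aS N (N - m) - aS N m ≤ 2 := by
      rw [aS_symm hN (by omega)]
      unfold aS
      rw [← sub_nonneg]
      have e2 : 2 - (-((2 * (m : ℝ) - N) / N) - (2 * (m : ℝ) - N) / N) = 4 * m / N := by
        field_simp
        ring
      rw [e2]
      positivity
    calc (ENNReal.ofReal (aS N (N - m) - aS N m)).toReal ≤ max (aS N (N - m) - aS N m) 0 := by
          rw [ENNReal.toReal_ofReal']
      _ ≤ 2 := max_le h1 (by norm_num)
  calc ∏ i : ι, (volume (Set.Icc (aS N m) (aS N (N - m)))).toReal ≤ ∏ _i : ι, (2 : ℝ) :=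
        prod_le_prod (fun i _ => ENNReal.toReal_nonneg) e
    _ = 2 ^ Fintype.card ι := by rw [prod_const, card_univ]

/-- **the step function may be removed** -/
theorem stepM (ι : Type) [Fintype ι] [DecidableEq ι] : ∃ C : ℝ, 0 ≤ C ∧ ∀ N : ℕ, 1 ≤ N →
    ∀ m : ℕ, 2 * m < N →
    ∀ (F : (ι → ℂ) → ℂ) (U : Set (ι → ℂ)) (τ A B : ℝ), IsOpen U → DifferentiableOn ℂ F U →
    1 ≤ τ * N → τ ≤ 1 → Nb ι N (aS N (N - m)) τ ⊆ U →
    (∀ u ∈ Nb ι N (aS N (N - m)) τ, ‖F u‖ ≤ A) →
    (∀ u ∈ Nb ι N (aS N (N - m)) τ, (∃ j, |(u j).re| = aS N (N - m)) → ‖F u‖ ≤ B) →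
    ∀ M : Finset ι, ‖(∫ x in Bn ι N m, F fun i => (st M N x i : ℂ)) -
      ∫ x in Bn ι N m, F fun i => (x i : ℂ)‖ ≤
      M.card * (C * (Real.exp (-(2 * Real.pi * τ * N)) * A + B)) := by
  obtain ⟨C, hC, H⟩ := step1
  refine ⟨2 ^ Fintype.card ι * (4 * C), by positivity, fun N hN m hm F U τ A B hU hF hτ hτ1 hNb hA hB => ?_⟩
  have hN0 : (0 : ℝ) < N := by exact_mod_cast hN
  have hτ0 : 0 < τ := by
    by_contra h
    have := mul_nonpos_of_nonpos_of_nonneg (not_lt.1 h) hN0.le
    linarith
  have hsy : aS N m = -aS N (N - m) := by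
    rw [aS_symm hN (by omega), neg_neg]
  have he0 : 0 < aS N (N - m) := by
    rw [aS_symm hN (by omega)]
    unfold aS
    rw [← neg_div]
    refine div_pos ?_ hN0
    have : (2 * m : ℝ) < N := by exact_mod_cast hm
    linarith
  have hinv : (0 : ℝ) < 1 / N := by positivity
  have hA0 : 0 ≤ A := (norm_nonneg _).trans (hA 0 fun j => ⟨by simp; positivity, by simp; positivity⟩)
  -- the points of the box
  have hbox : ∀ (M : Finset ι) (x : ι → ℝ), x ∈ Bn ι N m →
      (fun i => (st M N x i : ℂ)) ∈ Nb ι N (aS N (N - m)) τ := by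
    intro M x hx j
    have h1 := hx j (Set.mem_univ j)
    have h2 := abs_le.1 (st_near M hN x j)
    rw [hsy] at h1
    refine ⟨?_, by simp; positivity⟩
    rw [Complex.ofReal_re, abs_le]
    constructor <;> linarith [h1.1, h1.2, h2.1, h2.2]
  -- the functions
  set G : Finset ι → (ι → ℝ) → ℂ := fun M => (Bn ι N m).indicator fun x =>
    F fun i => (st M N x i : ℂ) with hG
  have hGm : ∀ M, Integrable (G M) := by
    intro M
    rw [hG]
    refine IntegrableOn.integrable_indicator ?_ (Bn_meas N m)
    refine IntegrableOn.of_bound (Bn_vol N m).lt_top ?_ A ?_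
    · classical
      have h1 : Measurable (U.indicator F) := by
        rw [← Set.piecewise_eq_indicator]
        exact hF.continuousOn.measurable_piecewise continuousOn_const hU.measurableSet
      have h2 : Measurable fun x : ι → ℝ => (fun i => (st M N x i : ℂ)) := by
        refine measurable_pi_iff.2 fun i => ?_
        exact Complex.measurable_ofReal.comp ((measurable_pi_apply i).comp (st_meas M N))
      refine AEStronglyMeasurable.congr (f := fun x => (U.indicator F) fun i => (st M N x i : ℂ))
        (h1.comp h2).aestronglyMeasurable ?_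
      rw [EventuallyEq, ae_restrict_iff' (Bn_meas N m)]
      refine Eventually.of_forall fun x hx => ?_
      rw [Set.indicator_of_mem (hNb (hbox M x hx))]
    · rw [ae_restrict_iff' (Bn_meas N m)]
      exact Eventually.of_forall fun x hx => hA _ (hbox M x hx)
  have hGi : ∀ M, ∫ x, G M x = ∫ x in Bn ι N m, F fun i => (st M N x i : ℂ) := fun M =>
    integral_indicator (Bn_meas N m)
  set ε : ℝ := 4 * C * (Real.exp (-(2 * Real.pi * τ * N)) * A + B) with hε
  -- one step
  have hstep : ∀ (M : Finset ι) (i : ι), i ∉ M → ‖(∫ x, G (insert i M) x) - ∫ x, G M x‖ ≤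
      2 ^ Fintype.card ι * ε := by
    intro M i hi
    have hB0 : 0 ≤ B := by
      refine (norm_nonneg _).trans (hB (fun j => ((aS N (N - m) : ℝ) : ℂ)) (fun j => ⟨?_, ?_⟩)
        ⟨i, ?_⟩)
      · rw [Complex.ofReal_re, abs_of_pos he0]
        linarith
      · simp
        positivity
      · rw [Complex.ofReal_re, abs_of_pos he0]
    have hε0 : 0 ≤ ε := by positivity
    obtain ⟨a1, a2⟩ := fub i (G (insert i M)) (hGm _)
    obtain ⟨b1, b2⟩ := fub i (G M) (hGm _)
    rw [a2, b2, ← integral_sub a1.integral_prod_right b1.integral_prod_right]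
    have hpt : ∀ y : {j : ι // ¬ j = i} → ℝ, ‖(∫ z : ℝ, G (insert i M) (ins i z y)) -
        ∫ z : ℝ, G M (ins i z y)‖ ≤ (Bn {j : ι // ¬ j = i} N m).indicator (fun _ => ε) y := by
      intro y
      by_cases hy : y ∈ Bn {j : ι // ¬ j = i} N m
      · rw [Set.indicator_of_mem hy]
        set v : ι → ℂ := fun j => ((if h : j = i then 0 else
          (if j ∈ M then stN N (y ⟨j, h⟩) else y ⟨j, h⟩) : ℝ) : ℂ) with hv
        set f : ℂ → ℂ := fun ζ => F (Function.update v i ζ) with hf
        have hmemB : ∀ z : ℝ, ins i z y ∈ Bn ι N m ↔ z ∈ Set.Icc (aS N m) (aS N (N - m)) := by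
          intro z
          constructor
          · intro h
            have := h i (Set.mem_univ i)
            simpa [ins] using this
          · intro h j _
            unfold ins
            by_cases hj : j = i
            · rw [dif_pos hj]
              exact h
            · rw [dif_neg hj]
              exact hy ⟨j, hj⟩ (Set.mem_univ _)
        have hg1 : ∀ z : ℝ, G (insert i M) (ins i z y) =
            (Set.Icc (aS N m) (aS N (N - m))).indicator (fun z => f (stN N z : ℝ)) z := by
          intro z
          rw [hG]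
          by_cases hz : z ∈ Set.Icc (aS N m) (aS N (N - m))
          · simp only
            rw [Set.indicator_of_mem hz, Set.indicator_of_mem ((hmemB z).2 hz), hf]
            simp only
            congr 1
            funext j
            by_cases hj : j = i
            · subst hj
              rw [Function.update_self]
              unfold st ins
              rw [if_pos (mem_insert_self _ _), dif_pos rfl]
            · rw [Function.update_of_ne hj, hv]
              unfold st ins
              simp only [mem_insert, hj, false_or, dif_neg, not_false_eq_true]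
          · simp only
            rw [Set.indicator_of_notMem hz, Set.indicator_of_notMem fun h => hz ((hmemB z).1 h)]
        have hg2 : ∀ z : ℝ, G M (ins i z y) =
            (Set.Icc (aS N m) (aS N (N - m))).indicator (fun z => f (z : ℝ)) z := by
          intro z
          rw [hG]
          by_cases hz : z ∈ Set.Icc (aS N m) (aS N (N - m))
          · simp only
            rw [Set.indicator_of_mem hz, Set.indicator_of_mem ((hmemB z).2 hz), hf]
            simp only
            congr 1
            funext j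
            by_cases hj : j = i
            · subst hj
              rw [Function.update_self]
              unfold st ins
              rw [if_neg hi, dif_pos rfl]
            · rw [Function.update_of_ne hj, hv]
              unfold st ins
              simp only [hj, dif_neg, not_false_eq_true]
          · simp only
            rw [Set.indicator_of_notMem hz, Set.indicator_of_notMem fun h => hz ((hmemB z).1 h)]
        simp only [hg1, hg2]
        rw [integral_indicator measurableSet_Icc, integral_indicator measurableSet_Icc]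
        -- the points
        have hvm : ∀ x t : ℝ, |x| ≤ aS N (N - m) → |t| ≤ 2 * τ →
            Function.update v i ((x : ℂ) + t * Complex.I) ∈ Nb ι N (aS N (N - m)) τ := by
          intro x t hx ht j
          by_cases hj : j = i
          · subst hj
            rw [Function.update_self]
            simp only [Complex.add_re, Complex.ofReal_re, Complex.mul_re, Complex.I_re, mul_zero,
              Complex.ofReal_im, Complex.I_im, mul_one, sub_self, add_zero, Complex.add_im,
              Complex.mul_im, zero_add]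
            exact ⟨by linarith, ht⟩
          · rw [Function.update_of_ne hj, hv]
            simp only [dif_neg hj]
            refine ⟨?_, by rw [Complex.ofReal_im, abs_zero]; positivity⟩
            have h1 := hy ⟨j, hj⟩ (Set.mem_univ _)
            rw [hsy] at h1
            rw [Complex.ofReal_re]
            split_ifs with hM
            · have h2 := abs_le.1 (stN_near hN (y ⟨j, hj⟩))
              rw [abs_le]
              constructor <;> linarith [h1.1, h1.2, h2.1, h2.2]
            · rw [abs_le]
              constructor <;> linarith [h1.1, h1.2]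
        have hIcc : ∀ x ∈ Set.Icc (aS N m) (aS N (N - m)), |x| ≤ aS N (N - m) := by
          intro x hx
          rw [hsy] at hx
          exact abs_le.2 ⟨hx.1, hx.2⟩
        have hup : ∀ ζ : ℂ, DifferentiableAt ℂ (fun ζ : ℂ => Function.update v i ζ) ζ := by
          intro ζ
          rw [differentiableAt_pi]
          intro j
          by_cases hj : j = i
          · subst hj
            simp only [Function.update_self]
            exact differentiableAt_id
          · simp only [Function.update_of_ne hj]
            exact differentiableAt_const _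
        have hupc : Continuous fun ζ : ℂ => Function.update v i ζ :=
          continuous_iff_continuousAt.2 fun ζ => (hup ζ).continuousAt
        refine H N hN m hm f ((fun ζ : ℂ => Function.update v i ζ) ⁻¹' U) τ A B (hU.preimage hupc)
          (hF.comp (fun ζ _ => (hup ζ).differentiableWithinAt) fun ζ hζ => hζ) hτ hτ1 ?_ ?_ ?_
        · intro x hx t ht
          exact hNb (hvm x t (hIcc x hx) (abs_le.2 ⟨ht.1, ht.2⟩))
        · intro x hx
          refine ⟨hA _ (hvm x _ (hIcc x hx) (by rw [abs_of_pos (by positivity)])), ?_⟩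
          have e1 : (x : ℂ) - ((2 * τ : ℝ) : ℂ) * Complex.I =
              (x : ℂ) + ((-(2 * τ) : ℝ) : ℂ) * Complex.I := by
            push_cast
            ring
          rw [e1]
          exact hA _ (hvm x _ (hIcc x hx) (by rw [abs_neg, abs_of_pos (by positivity)]))
        · intro t ht
          have ht' : |t| ≤ 2 * τ := abs_le.2 ⟨ht.1, ht.2⟩
          constructor
          · refine hB _ (hvm _ t ?_ ht') ⟨i, ?_⟩
            · rw [hsy, abs_neg, abs_of_pos he0]
            · rw [Function.update_self]
              simp only [Complex.add_re, Complex.ofReal_re, Complex.mul_re, Complex.I_re, mul_zero,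
                Complex.ofReal_im, Complex.I_im, mul_one, sub_self, add_zero]
              rw [hsy, abs_neg, abs_of_pos he0]
          · refine hB _ (hvm _ t ?_ ht') ⟨i, ?_⟩
            · rw [abs_of_pos he0]
            · rw [Function.update_self]
              simp only [Complex.add_re, Complex.ofReal_re, Complex.mul_re, Complex.I_re, mul_zero,
                Complex.ofReal_im, Complex.I_im, mul_one, sub_self, add_zero]
              rw [abs_of_pos he0]
      · rw [Set.indicator_of_notMem hy]
        have hz : ∀ z : ℝ, ins i z y ∉ Bn ι N m := by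
          intro z h
          refine hy fun j _ => ?_
          have := h j.1 (Set.mem_univ _)
          unfold ins at this
          rwa [dif_neg j.2] at this
        have e1 : ∀ (M' : Finset ι) (z : ℝ), G M' (ins i z y) = 0 := by
          intro M' z
          rw [hG]
          simp only
          rw [Set.indicator_of_notMem (hz z)]
        simp only [e1, integral_zero, sub_self, norm_zero]
        exact le_rfl
    have hbi : Integrable ((Bn {j : ι // ¬ j = i} N m).indicator (fun _ => ε)) := by
      refine IntegrableOn.integrable_indicator ?_ (Bn_meas N m)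
      exact integrableOn_const (Bn_vol N m)
    refine (norm_integral_le_of_norm_le hbi (Eventually.of_forall hpt)).trans ?_
    rw [integral_indicator (Bn_meas N m), setIntegral_const, smul_eq_mul]
    refine mul_le_mul_of_nonneg_right ?_ hε0
    refine (Bn_real hN (by omega)).trans ?_
    refine pow_le_pow_right₀ (by norm_num) ?_
    exact Fintype.card_subtype_le _
  intro M
  have h0 : (∫ x in Bn ι N m, F fun i => (x i : ℂ)) = ∫ x, G ∅ x := by
    rw [hGi]
    refine setIntegral_congr_fun (Bn_meas N m) fun x _ => ?_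
    simp only [st_empty]
  rw [h0, ← hGi]
  induction M using Finset.induction_on with
  | empty =>
    rw [sub_self, norm_zero, card_empty]
    simp
  | insert i M hi ih =>
    rw [card_insert_of_notMem hi]
    have h1 := hstep M i hi
    have h2 : (∫ x, G (insert i M) x) - ∫ x, G ∅ x =
        ((∫ x, G (insert i M) x) - ∫ x, G M x) + ((∫ x, G M x) - ∫ x, G ∅ x) := by ring
    rw [h2]
    refine (norm_add_le _ _).trans ((add_le_add h1 ih).trans (le_of_eq ?_))
    rw [hε]
    push_cast
    ring

end

end Pool.Agent.H811.VX
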