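import Pool.Agent.H811.VX.Dfl
import Pool.Graph.R_pool_sql_team_seeded_3997aac3.Q99.XF.Rx1

/-!
# Sums over lattice points in some of the variables: near a critical point
-/

set_option autoImplicit false

namespace Pool.Agent.H811.VX

open Finset Filter Topology MeasureTheory
open Pool.Agent.H760.MX (stN aS stN_sum stN_near stN_meas)

/-- the number of the first lattice point in the box -/
noncomputable def mN (η : ℝ) (N : ℕ) : ℕ := ⌈(N : ℝ) * (1 - η) / 2⌉₊

theorem mN_spec {η : ℝ} (hη : 0 < η) (hη1 : η < 1) {N : ℕ} (hN : 1 ≤ N) (hNη : 4 / η ≤ N) :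
    2 * mN η N < N ∧ aS N (N - mN η N) ≤ η ∧ η / 2 ≤ aS N (N - mN η N) := by
  have hN0 : (0 : ℝ) < N := by exact_mod_cast hN
  have h1 : (N : ℝ) * (1 - η) / 2 ≤ mN η N := Nat.le_ceil _
  have h2 : (mN η N : ℝ) < (N : ℝ) * (1 - η) / 2 + 1 :=
    Nat.ceil_lt_add_one (by have : 0 < 1 - η := by linarith
                            positivity)
  have h3 : 4 ≤ N * η := by rwa [div_le_iff₀ hη] at hNη
  have h4 : 2 * mN η N < N := by
    have : (2 * mN η N : ℝ) < N := by linarith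
    exact_mod_cast this
  refine ⟨h4, ?_, ?_⟩
  · rw [aS_symm hN (by omega)]
    unfold aS
    rw [← neg_div, div_le_iff₀ hN0]
    linarith
  · rw [aS_symm hN (by omega)]
    unfold aS
    rw [← neg_div, le_div_iff₀ hN0]
    linarith

/-- **the step function may be removed near a critical point** -/
theorem dfl {ι : Type} [Fintype ι] [DecidableEq ι] (M : Finset ι) {R κ K B η : ℝ} (hR : 0 < R)
    (hκ : 0 < κ) (hK : 0 < K) (hB : 0 ≤ B) (q : (ι → ℂ) → ℂ) (H : ℕ → (ι → ℂ) → ℂ)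
    (hq : DifferentiableOn ℂ q (Metric.ball 0 R))
    (hqb : ∀ u ∈ Metric.ball (0 : ι → ℂ) R,
      (q u).re ≤ -κ * ∑ j, (u j).re ^ 2 + K * ∑ j, (u j).im ^ 2)
    (hH : ∀ᶠ N : ℕ in atTop, DifferentiableOn ℂ (H N) (Metric.ball 0 R))
    (hHB : ∀ᶠ N : ℕ in atTop, ∀ u ∈ Metric.ball (0 : ι → ℂ) R, ‖H N u‖ ≤ B)
    (hη : 0 < η) (hηR : η ≤ R / 4) (hη1 : η < 1) : ∃ c0 C : ℝ, 0 < c0 ∧ ∀ᶠ N : ℕ in atTop,
    ‖(∫ x in Bn ι N (mN η N), Complex.exp (N * q fun i => (st M N x i : ℂ)) *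
        H N fun i => (st M N x i : ℂ)) -
      ∫ x in Bn ι N (mN η N), Complex.exp (N * q fun i => (x i : ℂ)) * H N fun i => (x i : ℂ)‖ ≤
        C * Real.exp (-(c0 * N)) := by
  have hπ := Real.pi_pos
  obtain ⟨t, ht, ht1, htR, htπ, htκ⟩ := Pool.Agent.Q99.XF.height R κ (4 * K) η (Fintype.card ι) hR hκ
    (by positivity) hη
  obtain ⟨C, hC, hM⟩ := stepM ι
  set d : ℝ := (Fintype.card ι : ℝ) with hd
  set c0 : ℝ := min (Real.pi * t) (κ * η ^ 2 / 8) with hc0
  have hc0p : 0 < c0 := lt_min (by positivity) (by positivity)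
  refine ⟨c0, M.card * (C * (2 * B)), hc0p, ?_⟩
  have h1 := (tendsto_natCast_atTop_atTop (R := ℝ)).const_mul_atTop ht
  filter_upwards [h1.eventually_ge_atTop 1, hH, hHB, eventually_ge_atTop 1,
    (tendsto_natCast_atTop_atTop (R := ℝ)).eventually_ge_atTop (4 / η),
    (tendsto_natCast_atTop_atTop (R := ℝ)).eventually_ge_atTop (8 / R)] with N hN3 hHN hHBN hN1 hNη hNR
  have hN0 : (0 : ℝ) < N := by exact_mod_cast hN1
  obtain ⟨m1, m2, m3⟩ := mN_spec hη hη1 hN1 hNη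
  set e : ℝ := aS N (N - mN η N) with he
  have hNR' : 1 / (N : ℝ) ≤ R / 8 := by
    rw [div_le_iff₀ hR] at hNR
    rw [div_le_iff₀ hN0]
    linarith
  set g : (ι → ℂ) → ℂ := fun u => Complex.exp (N * q u) * H N u with hg
  have hgd : DifferentiableOn ℂ g (Metric.ball 0 R) :=
    ((hq.const_mul (N : ℂ)).cexp).mul hHN
  have hgb : ∀ u ∈ Metric.ball (0 : ι → ℂ) R, (∀ j, |(u j).im| ≤ 2 * t) →
      ‖g u‖ ≤ B * Real.exp (N * (-κ * ∑ j, (u j).re ^ 2 + 4 * K * d * t ^ 2)) := by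
    intro u hu hs
    have h1 := hqb u hu
    have h2 : K * ∑ j, (u j).im ^ 2 ≤ 4 * K * d * t ^ 2 := by
      have h3 : ∑ j, (u j).im ^ 2 ≤ ∑ _j : ι, (2 * t) ^ 2 := by
        refine sum_le_sum fun j _ => ?_
        rw [← sq_abs]
        exact pow_le_pow_left₀ (abs_nonneg _) (hs j) 2
      rw [sum_const, card_univ, nsmul_eq_mul] at h3
      calc K * ∑ j, (u j).im ^ 2 ≤ K * (d * (2 * t) ^ 2) := mul_le_mul_of_nonneg_left h3 hK.le
        _ = _ := by ring
    rw [hg]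
    simp only
    rw [norm_mul, Complex.norm_exp, mul_comm]
    refine mul_le_mul (hHBN u hu) (Real.exp_le_exp.2 ?_) (Real.exp_nonneg _) hB
    have e : ((N : ℂ) * q u).re = N * (q u).re := by simp
    rw [e]
    exact mul_le_mul_of_nonneg_left (by linarith) hN0.le
  have hNb : ∀ u ∈ Nb ι N e t, u ∈ Metric.ball (0 : ι → ℂ) R := by
    intro u hu
    rw [mem_ball_zero_iff, pi_norm_lt_iff hR]
    intro j
    have h3 := Complex.norm_le_abs_re_add_abs_im (u j)
    obtain ⟨h4, h5⟩ := hu j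
    linarith
  have hA : ∀ u ∈ Nb ι N e t, ‖g u‖ ≤ B * Real.exp (N * (4 * K * d * t ^ 2)) := by
    intro u hu
    refine (hgb u (hNb u hu) fun j => (hu j).2).trans
      (mul_le_mul_of_nonneg_left (Real.exp_le_exp.2 ?_) hB)
    refine mul_le_mul_of_nonneg_left ?_ hN0.le
    have : 0 ≤ κ * ∑ j, (u j).re ^ 2 := mul_nonneg hκ.le (sum_nonneg fun j _ => sq_nonneg _)
    linarith
  have hBf : ∀ u ∈ Nb ι N e t, (∃ j, |(u j).re| = e) →
      ‖g u‖ ≤ B * Real.exp (N * (-(κ * η ^ 2 / 8))) := by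
    intro u hu ⟨i, hi⟩
    refine (hgb u (hNb u hu) fun j => (hu j).2).trans
      (mul_le_mul_of_nonneg_left (Real.exp_le_exp.2 ?_) hB)
    refine mul_le_mul_of_nonneg_left ?_ hN0.le
    have h3 : (η / 2) ^ 2 ≤ (u i).re ^ 2 := by
      rw [← sq_abs (u i).re, hi]
      exact pow_le_pow_left₀ (by positivity) m3 2
    have h4 : (u i).re ^ 2 ≤ ∑ j, (u j).re ^ 2 :=
      single_le_sum (f := fun j => (u j).re ^ 2) (fun j _ => sq_nonneg _) (mem_univ i)
    nlinarith
  have hmain := hM N hN1 (mN η N) m1 g (Metric.ball 0 R) t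
    (B * Real.exp (N * (4 * K * d * t ^ 2))) (B * Real.exp (N * (-(κ * η ^ 2 / 8))))
    Metric.isOpen_ball hgd hN3 ht1 hNb hA hBf M
  refine hmain.trans ?_
  have hex1 : Real.exp (-(2 * Real.pi * t * N)) * (B * Real.exp (N * (4 * K * d * t ^ 2))) ≤
      B * Real.exp (-(c0 * N)) := by
    have e : Real.exp (-(2 * Real.pi * t * N)) * (B * Real.exp (N * (4 * K * d * t ^ 2))) =
        B * Real.exp (-(2 * Real.pi * t * N) + N * (4 * K * d * t ^ 2)) := by
      rw [Real.exp_add]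
      ring
    rw [e]
    refine mul_le_mul_of_nonneg_left (Real.exp_le_exp.2 ?_) hB
    have h1 : c0 ≤ Real.pi * t := min_le_left _ _
    nlinarith
  have hex2 : B * Real.exp (N * (-(κ * η ^ 2 / 8))) ≤ B * Real.exp (-(c0 * N)) := by
    refine mul_le_mul_of_nonneg_left (Real.exp_le_exp.2 ?_) hB
    have h1 : c0 ≤ κ * η ^ 2 / 8 := min_le_right _ _
    nlinarith
  have h5 : C * (Real.exp (-(2 * Real.pi * t * N)) * (B * Real.exp (N * (4 * K * d * t ^ 2))) +
      B * Real.exp (N * (-(κ * η ^ 2 / 8)))) ≤ C * (2 * B) * Real.exp (-(c0 * N)) := by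
    calc _ ≤ C * (2 * (B * Real.exp (-(c0 * N)))) := mul_le_mul_of_nonneg_left (by linarith) hC
      _ = _ := by ring
  calc _ ≤ (M.card : ℝ) * (C * (2 * B) * Real.exp (-(c0 * N))) :=
        mul_le_mul_of_nonneg_left h5 (by positivity)
    _ = _ := by ring

/-- **the bound of the real part near a critical point** -/
theorem re_bound {ι : Type} [Fintype ι] {R κ : ℝ} (hR : 0 < R) (hκ : 0 < κ) (q : (ι → ℂ) → ℂ)
    (hq : AnalyticOnNhd ℂ q (Metric.ball 0 R)) (hd : fderiv ℂ q 0 = 0)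
    (hre : ∀ x : ι → ℝ, (∀ i, |x i| < R) → (q fun i => x i).re ≤ -κ * ∑ i, x i ^ 2) :
    ∃ R' K : ℝ, 0 < R' ∧ R' ≤ R ∧ 0 < K ∧ ∀ u ∈ Metric.ball (0 : ι → ℂ) R',
      (q u).re ≤ -(κ / 2) * ∑ j, (u j).re ^ 2 + K * ∑ j, (u j).im ^ 2 := by
  have han : AnalyticAt ℂ q 0 := hq 0 (Metric.mem_ball_self hR)
  have hfd : DifferentiableAt ℂ (fderiv ℂ q) 0 := han.fderiv.differentiableAt
  -- the derivative is Lipschitz at `0`
  obtain ⟨C, hC, hev⟩ : ∃ C : ℝ, 0 < C ∧ ∀ᶠ u in 𝓝 (0 : ι → ℂ), ‖fderiv ℂ q u‖ ≤ C * ‖u‖ := by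
    have h1 := hfd.isBigO_sub
    rw [hd] at h1
    simp only [sub_zero] at h1
    obtain ⟨C, hC, h2⟩ := h1.exists_pos
    exact ⟨C, hC, h2.bound⟩
  obtain ⟨R1, hR1, hb⟩ := Metric.eventually_nhds_iff_ball.1 hev
  set R' : ℝ := min R R1 with hR'
  have hR'0 : 0 < R' := lt_min hR hR1
  refine ⟨R', C + C ^ 2 / (2 * κ), hR'0, min_le_left _ _, by positivity, fun u hu => ?_⟩
  rw [mem_ball_zero_iff] at hu
  set x : ι → ℂ := fun i => ((u i).re : ℂ) with hx
  set v : ι → ℂ := fun i => (u i).im * Complex.I with hv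
  have huxv : u = x + v := by
    funext i
    simp only [hx, hv, Pi.add_apply]
    exact (Complex.re_add_im (u i)).symm
  have hxn : ‖x‖ ≤ ‖u‖ := by
    refine (pi_norm_le_iff_of_nonneg (norm_nonneg _)).2 fun i => ?_
    rw [hx]
    simp only
    rw [Complex.norm_real, Real.norm_eq_abs]
    exact (Complex.abs_re_le_norm _).trans (norm_le_pi_norm u i)
  -- sums of squares
  set X : ℝ := √(∑ j, (u j).re ^ 2) with hX
  set Y : ℝ := √(∑ j, (u j).im ^ 2) with hY
  have hX2 : X ^ 2 = ∑ j, (u j).re ^ 2 := Real.sq_sqrt (sum_nonneg fun j _ => sq_nonneg _)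
  have hY2 : Y ^ 2 = ∑ j, (u j).im ^ 2 := Real.sq_sqrt (sum_nonneg fun j _ => sq_nonneg _)
  have hX0 : 0 ≤ X := Real.sqrt_nonneg _
  have hY0 : 0 ≤ Y := Real.sqrt_nonneg _
  have hxX : ‖x‖ ≤ X := by
    refine (pi_norm_le_iff_of_nonneg hX0).2 fun i => ?_
    rw [hx]
    simp only
    rw [Complex.norm_real, Real.norm_eq_abs]
    refine Real.abs_le_sqrt ?_
    exact single_le_sum (f := fun j => (u j).re ^ 2) (fun j _ => sq_nonneg _) (mem_univ i)
  have hvY : ‖v‖ ≤ Y := by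
    refine (pi_norm_le_iff_of_nonneg hY0).2 fun i => ?_
    rw [hv]
    simp only
    rw [norm_mul, Complex.norm_I, mul_one, Complex.norm_real, Real.norm_eq_abs]
    refine Real.abs_le_sqrt ?_
    exact single_le_sum (f := fun j => (u j).im ^ 2) (fun j _ => sq_nonneg _) (mem_univ i)
  -- the mean value theorem on the segment
  have hseg : ∀ w ∈ segment ℝ x u, ‖w‖ ≤ X + Y ∧ ‖w‖ < R' := by
    intro w hw
    rw [segment_eq_image'] at hw
    obtain ⟨s, ⟨hs0, hs1⟩, rfl⟩ := hw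
    have e1 : u - x = v := by rw [huxv]; abel
    constructor
    · show ‖x + s • (u - x)‖ ≤ X + Y
      rw [e1]
      refine (norm_add_le _ _).trans (add_le_add hxX ?_)
      rw [norm_smul, Real.norm_of_nonneg hs0]
      calc s * ‖v‖ ≤ 1 * ‖v‖ := mul_le_mul_of_nonneg_right hs1 (norm_nonneg _)
        _ ≤ Y := by rw [one_mul]; exact hvY
    · show ‖x + s • (u - x)‖ < R'
      have e2 : x + s • (u - x) = (1 - s) • x + s • u := by
        rw [smul_sub, sub_smul, one_smul]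
        abel
      rw [e2]
      refine (norm_add_le _ _).trans_lt ?_
      rw [norm_smul, norm_smul, Real.norm_of_nonneg hs0, Real.norm_of_nonneg (by linarith)]
      nlinarith [norm_nonneg x, norm_nonneg u]
  have hmv : ‖q u - q x‖ ≤ C * (X + Y) * Y := by
    have h1 : ∀ w ∈ segment ℝ x u, ‖fderiv ℂ q w‖ ≤ C * (X + Y) := by
      intro w hw
      obtain ⟨h2, h3⟩ := hseg w hw
      have h4 := hb w (by rw [mem_ball_zero_iff]; exact h3.trans_le (min_le_right _ _))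
      exact h4.trans (mul_le_mul_of_nonneg_left h2 hC.le)
    have h2 := Convex.norm_image_sub_le_of_norm_fderiv_le (𝕜 := ℂ) (f := q) (C := C * (X + Y))
      (s := segment ℝ x u) (x := x) (y := u) (fun w hw => by
        refine (hq w ?_).differentiableAt
        rw [mem_ball_zero_iff]
        exact (hseg w hw).2.trans_le (min_le_left _ _)) h1 (convex_segment x u)
      (left_mem_segment ℝ x u) (right_mem_segment ℝ x u)
    refine h2.trans ?_
    have e1 : u - x = v := by rw [huxv]; abel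
    rw [e1]
    exact mul_le_mul_of_nonneg_left hvY (by positivity)
  have h3 : (q x).re ≤ -κ * X ^ 2 := by
    rw [hX2]
    refine hre (fun i => (u i).re) fun i => ?_
    have h4 := norm_le_pi_norm u i
    have h5 := Complex.abs_re_le_norm (u i)
    have h6 : R' ≤ R := min_le_left _ _
    linarith
  have h4 : (q u).re ≤ (q x).re + C * (X + Y) * Y := by
    have h5 := (Complex.re_le_norm (q u - q x)).trans hmv
    rw [Complex.sub_re] at h5
    linarith
  rw [← hX2, ← hY2]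
  have h5 : C * X * Y ≤ κ / 2 * X ^ 2 + C ^ 2 / (2 * κ) * Y ^ 2 := by
    have h6 : 0 ≤ (κ * X - C * Y) ^ 2 / (2 * κ) := by positivity
    have e : (κ * X - C * Y) ^ 2 / (2 * κ) = κ / 2 * X ^ 2 - C * X * Y + C ^ 2 / (2 * κ) * Y ^ 2 := by
      field_simp
      ring
    rw [e] at h6
    linarith
  nlinarith

end Pool.Agent.H811.VX
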