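import Pool.Agent.H811.VX.AsX
import Pool.Agent.H760.MX.Ph
import Pool.Graph.R_pool_sql_team_seeded_3997aac3.Q99.HX.Fin2

/-!
# Partially augmented planar shadows: the Kashaev invariant to all orders

Adapted from `finX` and `phX` (`Pool/Agent/H760/MX/Fin.lean`, `Ph.lean`) and `Q99/HX/Fin.lean`,
`Fin2.lean`.
-/

set_option autoImplicit false

namespace Pool.Agent.H811.VX

open Finset Filter Topology MeasureTheory
open Pool.Agent.W715.VC (rt)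
open Pool.Agent.Q99.FAL (bq hh S_T1 Pc Ty Val Pri Pos AS Sol Out c6 fV n1 n2 cor dn Net up wd stp cls
  zz IsLat nV toR eij)
open Pool.Agent.Q99.KN (LC bb St S_LC tet lbf S_BW)
open Pool.Agent.Q99.HT
open Pool.Agent.Q99.HU
open Pool.Agent.Q99.HX (Xp tot)
open Pool.Agent.H760.MX

section
open Pool.Agent.Q99.HU.Q239

/-- **the state sum of a partially augmented planar shadow, to all orders** -/
theorem finXx (D : List Pc) (h1 : Val D 1) (h2 : Pri D 1) (h3 : D ≠ [])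
    (cc : Fin D.length → Bool) (a : Fin D.length → Fin 6 → ℝ) (ha : Mx D a) (hq : Dmx D cc a) :
    ∃ ρ0 : ℝ, 0 < ρ0 ∧ ∀ ρ : ℝ, 0 < ρ → ρ ≤ ρ0 → ∃ W0 C : ℝ, 1 ≤ W0 ∧
    ∀ (w : Fin D.length → ℤ) (Wm : ℝ), W0 ≤ Wm → (∀ k, cc k = false → Wm ≤ |(w k : ℝ)|) →
    ∃ x : Fin D.length → Fin 6 → ℂ, CrIX D cc w x ∧ (∀ s i, ‖x s i - a s i‖ < ρ) ∧
      (∀ x', CrIX D cc w x' → (∀ s i, ‖x' s i - a s i‖ < ρ) → x' = x) ∧
      (∀ s, cc s = true → n1 (x s) = n2 (x s)) ∧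
      (∀ s, cc s = false → 0 < (n1 (x s) - n2 (x s)).im) ∧
      VI x = 2 * Real.pi * (PIX cc w x).re ∧
      |VI x - 2 * Real.pi * fV a| ≤ C / Wm ^ 2 ∧
      ∃ y : ℕ → ℂ, y 0 ≠ 0 ∧ Xp (fun N : ℕ => (N : ℂ) ^ D.length * ZX N D cc w /
        (N * (√N : ℝ) * (sgX cc N * Complex.exp (N * PIX cc w x)))) y := by
  have hpi := Real.pi_pos
  obtain ⟨d, β, Y, hY⟩ := Pool.Agent.Q206.HT.task_NE D h1 h2 h3 a ha
  obtain ⟨hOk, hab, hv⟩ := Pool.Agent.Q239.HU.task_NOb D h1 h2 h3 a ha d β Y hY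
  have hfar := FARx D cc a ha hq d β Y hY hv
  obtain ⟨ρa, hρa, hAs⟩ := ASXx _ _ Y cc hOk hfar
    (fun s => Lx_of D h1 h2 h3 cc a ha hq d β Y hY s)
  obtain ⟨Cd, hCd, hDi⟩ := Pool.Agent.Q99.HU.Q166.task_NDi D h1 h2 h3 a ha d β Y hY hOk
  obtain ⟨ρv, hρv, hVf⟩ := VFx D h1 cc a ha.1
  obtain ⟨hT1, hT2, -, -⟩ := Pool.Agent.Q99.HU.Q166.task_NT t_LC D h1 h2 h3 a ha d β Y hY hOk
  have hCd0 : 0 < Cd := by linarith
  refine ⟨min (ρa / Cd) ρv, lt_min (by positivity) hρv, fun ρ hρ hρ' => ?_⟩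
  have hρ1 : Cd * ρ ≤ ρa := by
    have := le_trans hρ' (min_le_left _ _)
    rw [le_div_iff₀ hCd0] at this
    linarith
  have hρ2 : ρ ≤ ρv := le_trans hρ' (min_le_right _ _)
  have hρ3 : ρ / Cd ≤ ρa := by
    refine le_trans ?_ hρ1
    rw [div_le_iff₀ hCd0]
    nlinarith [mul_pos hCd0 hρ]
  obtain ⟨W1, C1, hW1, hB1⟩ := hAs (ρ / Cd) (by positivity) hρ3
  obtain ⟨W2, C2, hW2, hB2⟩ := hAs (Cd * ρ) (by positivity) hρ1
  refine ⟨max W1 W2, 2 * Real.pi * C1, le_trans hW1 (le_max_left _ _), fun w Wm hWm hf => ?_⟩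
  obtain ⟨T, J, ζ, hc, hn, hz0, him, hval, -, z, hz, hlim⟩ :=
    hB1 w Wm (le_trans (le_max_left _ _) hWm) hf
  obtain ⟨T2, J2, ζ2, hc2, hn2, -, -, -, hu2, -⟩ :=
    hB2 w Wm (le_trans (le_max_right _ _) hWm) hf
  have hle : ρ / Cd ≤ Cd * ρ := by
    rw [div_le_iff₀ hCd0]
    nlinarith [mul_pos hCd0 hρ, mul_pos (mul_pos hCd0 hρ) hCd0]
  have hmono : ∀ {T' : Fin d → ℂ} {J' ζ' : Fin D.length → ℂ}, Y.Nr (ρ / Cd) T' J' ζ' →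
      Y.Nr (Cd * ρ) T' J' ζ' := fun h =>
    ⟨fun j => lt_of_lt_of_le (h.1 j) hle, fun s => lt_of_lt_of_le (h.2.1 s) hle,
      fun s => lt_of_lt_of_le (h.2.2 s) hle⟩
  have hun : ∀ (T' : Fin d → ℂ) (J' ζ' : Fin D.length → ℂ), CrX Y cc w T' J' ζ' →
      Y.Nr (Cd * ρ) T' J' ζ' → T' = T ∧ J' = J ∧ ζ' = ζ := by
    intro T' J' ζ' h4 h5
    obtain ⟨e1, e2, e3⟩ := hu2 T' J' ζ' h4 h5
    obtain ⟨e4, e5, e6⟩ := hu2 T J ζ hc (hmono hn)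
    exact ⟨e1.trans e4.symm, e2.trans e5.symm, e3.trans e6.symm⟩
  set x : Fin D.length → Fin 6 → ℂ := fun s => sx (β s) (1 / 2) (Y.v T J s) (ζ s) with hx
  have hxc : CrIX D cc w x := by
    refine ⟨(hT1 x).2 ⟨T, J, ζ, hc.aj, rfl⟩, fun δ hδ => ?_⟩
    obtain ⟨T', J', ζ', hJ', rfl⟩ := (hT2 δ).1 hδ
    rw [hx, GIX_eq Y hOk β cc w T T' J ζ J' ζ' hc.aj hJ']
    exact hc.eq _ _ _ hJ'
  have hxn : ∀ s i, ‖x s i - a s i‖ < ρ := by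
    intro s i
    have := (hDi (ρ / Cd) T J ζ (by positivity)).1 hn s i
    rwa [mul_div_cancel₀ _ hCd0.ne'] at this
  have hPI : PIX cc w x = PhX Y cc w T J ζ := PIX_eq Y hOk β cc w T J ζ hc.aj
  have hVx : VI x = 2 * Real.pi * (PIX cc w x).re := hVf w x hxc fun s i => lt_of_lt_of_le (hxn s i) hρ2
  refine ⟨x, hxc, hxn, ?_, ?_, ?_, hVx, ?_, z, hz, ?_⟩
  · intro x' hx' hn'
    obtain ⟨T', J', ζ', hJ', rfl⟩ := (hT1 x').1 hx'.1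
    have h5 := (hDi ρ T' J' ζ' hρ).2 hn'
    have h4 : CrX Y cc w T' J' ζ' := by
      refine ⟨hJ', fun T'' J'' ζ'' hJ'' => ?_⟩
      rw [← GIX_eq Y hOk β cc w T' T'' J' ζ' J'' ζ'' hJ' hJ'']
      exact hx'.2 _ ((hT2 _).2 ⟨T'', J'', ζ'', hJ'', rfl⟩)
    obtain ⟨e1, e2, e3⟩ := hun T' J' ζ' h4 h5
    rw [hx, e1, e2, e3]
  · intro s hs
    have e1 := sx_n12 (β s) (1 / 2) (Y.v T J s) (ζ s)
    show n1 (sx (β s) (1 / 2) (Y.v T J s) (ζ s)) = n2 (sx (β s) (1 / 2) (Y.v T J s) (ζ s))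
    rw [e1.1, e1.2, hz0 s hs]
    ring
  · intro s hs
    have e1 := sx_n12 (β s) (1 / 2) (Y.v T J s) (ζ s)
    show 0 < (n1 (sx (β s) (1 / 2) (Y.v T J s) (ζ s)) -
      n2 (sx (β s) (1 / 2) (Y.v T J s) (ζ s))).im
    rw [e1.1, e1.2]
    have e2 : (1 / 2 + ζ s / 2 - (1 / 2 - ζ s / 2) : ℂ) = ζ s := by ring
    rw [e2]
    exact him s hs
  · rw [hVx, hPI, ← hv, ← mul_sub, abs_mul, abs_of_pos (by positivity : 0 < 2 * Real.pi), mul_div_assoc]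
    exact mul_le_mul_of_nonneg_left hval (by positivity)
  · refine hlim.congr' ?_
    filter_upwards [eventually_ge_atTop 1] with N hN
    have hN0 : 0 < N := hN
    have hN' : (N : ℂ) ≠ 0 := by exact_mod_cast hN0.ne'
    have hs0 : (√(N : ℝ)) ≠ 0 := (Real.sqrt_pos.2 (by exact_mod_cast hN0)).ne'
    have hs : ((√(N : ℝ) : ℝ) : ℂ) ≠ 0 := by exact_mod_cast hs0
    have hss : ((√(N : ℝ) : ℝ) : ℂ) ^ 2 = N := by
      rw [← Complex.ofReal_pow, Real.sq_sqrt (Nat.cast_nonneg N)]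
      simp
    have hcard := Pool.Agent.Q261.HT.task_NR D h1 h2 h3 a ha d β Y hY
    rw [hPI, zx_eq D h1 a d β Y hY hN0 cc w, Complex.exp_neg]
    have e1 : ((√(N : ℝ) : ℝ) : ℂ) ^ Y.nA / ((√(N : ℝ) : ℝ) : ℂ) ^ Fintype.card Y.Ix =
        (N : ℂ) ^ D.length / (N * (√(N : ℝ) : ℝ)) := by
      rw [div_eq_div_iff (pow_ne_zero _ hs) (mul_ne_zero hN' hs)]
      have e2 : (N : ℂ) * ((√(N : ℝ) : ℝ) : ℂ) = ((√(N : ℝ) : ℝ) : ℂ) ^ 3 := by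
        rw [pow_succ, hss]
      have e3 : (N : ℂ) ^ D.length = ((√(N : ℝ) : ℝ) : ℂ) ^ (2 * D.length) := by rw [pow_mul, hss]
      rw [e2, e3, ← pow_add, ← pow_add]
      congr 1
      omega
    rw [e1]
    have e5 := sgX_ne cc N
    have e6 := sgX_inv cc N
    have e7 := Complex.exp_ne_zero (N * PhX Y cc w T J ζ)
    calc (N : ℂ) ^ D.length / (N * (√(N : ℝ) : ℝ)) * sgX cc N *
          (Complex.exp (N * PhX Y cc w T J ζ))⁻¹ * Zn Y N cc w =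
        (N : ℂ) ^ D.length / (N * (√(N : ℝ) : ℝ)) * (sgX cc N)⁻¹ *
          (Complex.exp (N * PhX Y cc w T J ζ))⁻¹ * Zn Y N cc w := by rw [e6]
      _ = _ := by
          field_simp

end

/-- **the Kashaev invariant from the state sum** -/
theorem kasX_xp (D : List Pc) (h1 : Val D 1) (cc : Fin D.length → Bool)
    (f : Fin D.length → Bool × ℕ) (P : ℂ)
    (y : ℕ → ℂ) (hy : y 0 ≠ 0) (hX : Xp (fun N : ℕ => (N : ℂ) ^ D.length * ZX N D cc (wf f) /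
      (N * (√N : ℝ) * (sgX cc N * Complex.exp (N * P)))) y) :
    ∃ u : ℕ → ℂ, u 0 ≠ 0 ∧ Xp (fun N : ℕ => kasX N D cc f /
      (N * √N * Complex.exp (N * (P - Complex.I * Real.pi * tot f / 4)))) u := by
  obtain ⟨β, γ, h⟩ := kasX_ph D h1 cc f P
  have hk0 : (∏ k, kp (cc k)) ≠ 0 := Finset.prod_ne_zero_iff.2 fun k _ => kp_ne _
  obtain ⟨u1, e1, g1⟩ := Pool.Agent.Q99.HX.Xp.inv (Complex.I * Real.pi * γ)
  obtain ⟨u2, e2, g2⟩ := (Pool.Agent.Q99.HX.Xp.const (Complex.exp (Complex.I * Real.pi * β))).mul g1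
  obtain ⟨u3, e3, g3⟩ := g2.mul (Pool.Agent.Q99.HX.Xp.const (∏ k, kp (cc k)))
  obtain ⟨u4, e4, g4⟩ := g3.mul hX
  refine ⟨u4, ?_, g4.congr' ?_⟩
  · rw [e4, e3, e2, e1]
    simp only [if_true]
    exact mul_ne_zero (mul_ne_zero (mul_ne_zero (Complex.exp_ne_zero _) one_ne_zero) hk0) hy
  · filter_upwards [eventually_ge_atTop 1] with N hN
    exact (h N hN).symm

/-- **the Kashaev invariant of a partially augmented planar shadow, to all orders** -/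
theorem exX (D : List Pc) (h1 : Val D 1) (h2 : Pri D 1) (h3 : D ≠ [])
    (cc : Fin D.length → Bool) (a : Fin D.length → Fin 6 → ℝ) (ha : Mx D a) (hq : Dmx D cc a) :
    ∃ ρ0 : ℝ, 0 < ρ0 ∧ ∀ ρ : ℝ, 0 < ρ → ρ ≤ ρ0 → ∃ W0 C : ℝ, 1 ≤ W0 ∧
    ∀ (f : Fin D.length → Bool × ℕ) (Wm : ℝ), W0 ≤ Wm → (∀ k, cc k = false → Wm ≤ (f k).2) →
    ∃ x : Fin D.length → Fin 6 → ℂ, CrIX D cc (wf f) x ∧ (∀ s i, ‖x s i - a s i‖ < ρ) ∧
      (∀ x', CrIX D cc (wf f) x' → (∀ s i, ‖x' s i - a s i‖ < ρ) → x' = x) ∧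
      (∀ s, cc s = true → n1 (x s) = n2 (x s)) ∧
      VI x = 2 * Real.pi * (PIX cc (wf f) x).re ∧
      |VI x - 2 * Real.pi * fV a| ≤ C / Wm ^ 2 ∧
      ∃ y : ℕ → ℂ, y 0 ≠ 0 ∧ Xp (fun N : ℕ => kasX N D cc f /
        (N * √N * Complex.exp (N * (PIX cc (wf f) x - Complex.I * Real.pi * tot f / 4)))) y := by
  obtain ⟨ρ0, hρ0, H⟩ := finXx D h1 h2 h3 cc a ha hq
  refine ⟨ρ0, hρ0, fun ρ hρ hρ' => ?_⟩
  obtain ⟨W0, C, hW0, G⟩ := H ρ hρ hρ'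
  refine ⟨W0, C, hW0, fun f Wm hWm hf => ?_⟩
  obtain ⟨x, g1, g2, g3, g4, -, g5, g6, y, hy, g7⟩ := G (wf f) Wm hWm fun k hk => by
    rw [Pool.Agent.Q99.HU.wf_abs]
    exact hf k hk
  exact ⟨x, g1, g2, g3, g4, g5, g6, kasX_xp D h1 cc f _ y hy g7⟩

end Pool.Agent.H811.VX
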