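import Pool.Agent.H811.VX.Dfl2
import Pool.Graph.R_pool_sql_team_seeded_3997aac3.Q176.HX.LPX
import Pool.Graph.R_pool_sql_team_seeded_3997aac3.Q162.HX.FLAP

/-!
# Laplace's method to all orders, with sums over lattice points in some of the variables
-/

set_option autoImplicit false

namespace Pool.Agent.H811.VX

open Finset Filter Topology MeasureTheory
open Pool.Agent.H760.MX (stN aS stN_sum stN_near stN_meas)
open Pool.Agent.Q99.HX (Xp UA)
open Pool.Agent.Q176.HX (pow_of_exp gauss_int xp_add_small)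

/-- **Laplace's method to all orders**, with step functions in the variables `M` -/
theorem lapx {ι : Type} [Fintype ι] [DecidableEq ι] (M : Finset ι) {R κ' κ B η1 : ℝ} (hR : 0 < R)
    (hκ' : 0 < κ') (hκ : 0 < κ) (hB : 0 ≤ B) (hη1 : 0 < η1) (q : (ι → ℂ) → ℂ)
    (H : ℕ → (ι → ℂ) → ℂ) (hq : AnalyticOnNhd ℂ q (Metric.ball 0 R)) (hq0 : q 0 = 0)
    (hqd : fderiv ℂ q 0 = 0)
    (hre : ∀ x : ι → ℝ, (∀ i, |x i| < R) → (q fun i => x i).re ≤ -κ' * ∑ i, x i ^ 2)
    (hH : ∀ᶠ N : ℕ in atTop, DifferentiableOn ℂ (H N) (Metric.ball 0 R))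
    (hUA : UA H (Metric.ball 0 R)) (F : ℕ → (ι → ℝ) → ℂ)
    (hFb : ∀ᶠ N : ℕ in atTop, ∀ u, ‖F N u‖ ≤ B * Real.exp (-(κ * N * ∑ i, u i ^ 2)))
    (hFm : ∀ᶠ N : ℕ in atTop, AEStronglyMeasurable (F N) volume)
    (hFe : ∀ᶠ N : ℕ in atTop, ∀ u : ι → ℝ, (∀ i, |u i| ≤ η1) →
      F N u = Complex.exp (N * q fun i => (st M N u i : ℂ)) * H N fun i => (st M N u i : ℂ)) :
    ∃ y : ℕ → ℂ, Xp (fun N : ℕ => ((√N : ℝ) : ℂ) ^ Fintype.card ι * ∫ x, F N x) y := by
  obtain ⟨R', K, hR', hR'R, hK, hqb⟩ := re_bound hR hκ' q hq hqd hre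
  have hsub : Metric.ball (0 : ι → ℂ) R' ⊆ Metric.ball 0 R := Metric.ball_subset_ball hR'R
  -- the bound of the amplitude
  obtain ⟨B0, hB0, hHB⟩ : ∃ B0 : ℝ, 0 ≤ B0 ∧ ∀ᶠ N : ℕ in atTop,
      ∀ u ∈ Metric.ball (0 : ι → ℂ) R, ‖H N u‖ ≤ B0 := by
    obtain ⟨h, h1, -⟩ := hUA
    obtain ⟨C, hC⟩ := h1 0
    refine ⟨|C|, abs_nonneg _, ?_⟩
    filter_upwards [hC] with N hN u hu
    have h2 := hN u hu
    rw [range_zero, sum_empty, sub_zero, pow_zero, div_one] at h2
    exact h2.trans (le_abs_self _)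
  -- Laplace's method
  obtain ⟨η0, hη0, hη0R, hfl⟩ := Pool.Agent.Q162.HX.task_FLAP ι R κ' hR hκ' q H hq hq0 hqd hre
    (hH.mono fun N hN => hN.continuousOn) hUA
  set η : ℝ := min (min η0 (R' / 4)) (min η1 (1 / 2)) with hη
  have hηp : 0 < η := lt_min (lt_min hη0 (by positivity)) (lt_min hη1 (by norm_num))
  have e1 : η ≤ η0 := (min_le_left _ _).trans (min_le_left _ _)
  have e2 : η ≤ R' / 4 := (min_le_left _ _).trans (min_le_right _ _)
  have e3 : η ≤ η1 := (min_le_right _ _).trans (min_le_left _ _)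
  have e4 : η < 1 := ((min_le_right _ _).trans (min_le_right _ _)).trans_lt (by norm_num)
  obtain ⟨y, hy⟩ := hfl η hηp e1
  refine ⟨y, xp_add_small hy fun k => ?_⟩
  obtain ⟨c0, C0, hc0, hdfl⟩ := dfl M hR' (half_pos hκ') hK hB0 q H
    (fun u hu => (hq u (hsub hu)).differentiableAt.differentiableWithinAt) hqb
    (hH.mono fun N hN => hN.mono hsub) (hHB.mono fun N hN u hu => hN u (hsub hu)) hηp e2 e4
  set Bo : Set (ι → ℝ) := {x | ∀ i, |x i| ≤ η} with hBo
  have hBopi : Bo = Set.univ.pi fun _ => Set.Icc (-η) η := by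
    ext x
    simp only [hBo, Set.mem_ofPred_eq, Set.mem_univ_pi, Set.mem_Icc, abs_le]
  have hBom : MeasurableSet Bo := by
    rw [hBopi]
    exact MeasurableSet.univ_pi fun _ => measurableSet_Icc
  have hBov : (volume : Measure (ι → ℝ)) Bo ≠ ⊤ := by
    rw [hBopi, volume_pi_pi]
    exact (ENNReal.prod_lt_top fun i _ => by rw [Real.volume_Icc]; exact ENNReal.ofReal_lt_top).ne
  set I0 : ℝ := ∫ x : ι → ℝ, Real.exp (-(κ / 2 * ∑ i, x i ^ 2)) with hI0
  have hI00 : 0 ≤ I0 := integral_nonneg fun x => (Real.exp_pos _).le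
  set c1 : ℝ := min c0 (min (κ * η ^ 2 / 8) (κ' * η ^ 2 / 4)) with hc1
  have hc1p : 0 < c1 := lt_min hc0 (lt_min (by positivity) (by positivity))
  set C1 : ℝ := B * I0 + |C0| + B0 * (volume : Measure (ι → ℝ)).real Bo with hC1
  refine ⟨1, ?_⟩
  have hsm := pow_of_exp (m := Fintype.card ι) (a := c1) (A := C1) hc1p k
  filter_upwards [hsm, hFb, hFm, hFe, hdfl, hHB, hH, eventually_ge_atTop 1,
    (tendsto_natCast_atTop_atTop (R := ℝ)).eventually_ge_atTop (4 / η)] with
    N h1 h2 h3 h4 h5 h6 h7 hN1 hNη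
  have hN0 : (0 : ℝ) < N := by exact_mod_cast hN1
  have hN1r : (1 : ℝ) ≤ N := by exact_mod_cast hN1
  obtain ⟨m1, m2, m3⟩ := mN_spec hηp e4 hN1 hNη
  set m : ℕ := mN η N with hm
  have hsy : aS N m = -aS N (N - m) := by
    rw [aS_symm hN1 (by omega), neg_neg]
  set g : (ι → ℂ) → ℂ := fun u => Complex.exp (N * q u) * H N u with hg
  have hBB : Bn ι N m ⊆ Bo := by
    intro x hx i
    have := hx i (Set.mem_univ i)
    rw [hsy] at this
    exact abs_le.2 ⟨by linarith [this.1], by linarith [this.2]⟩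
  have hBnm : MeasurableSet (Bn ι N m) := Bn_meas N m
  have hout : ∀ x : ι → ℝ, x ∉ Bn ι N m → (η / 2) ^ 2 ≤ ∑ i, x i ^ 2 := by
    intro x hx
    have : ∃ i, x i ∉ Set.Icc (aS N m) (aS N (N - m)) := by
      by_contra hc
      push Not at hc
      exact hx fun i _ => hc i
    obtain ⟨i, hi⟩ := this
    have h8 : η / 2 ≤ |x i| := by
      by_contra hc
      rw [not_le, abs_lt] at hc
      refine hi ⟨?_, ?_⟩
      · rw [hsy]
        linarith
      · linarith
    have h9 : (η / 2) ^ 2 ≤ x i ^ 2 := by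
      rw [← sq_abs (x i)]
      exact pow_le_pow_left₀ (by positivity) h8 2
    exact h9.trans (single_le_sum (f := fun i => x i ^ 2) (fun i _ => sq_nonneg _) (mem_univ i))
  have hFi : Integrable (F N) volume := by
    refine Integrable.mono' ((gauss_int (ι := ι) (b := κ * N) (by positivity)).const_mul B) h3
      (Eventually.of_forall h2)
  have hsplit : ∫ x, F N x = (∫ x in Bn ι N m, F N x) + ∫ x in (Bn ι N m)ᶜ, F N x :=
    (integral_add_compl hBnm hFi).symm
  have hin : ∫ x in Bn ι N m, F N x = ∫ x in Bn ι N m, g fun i => (st M N x i : ℂ) := by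
    refine setIntegral_congr_fun hBnm fun x hx => ?_
    exact h4 x fun i => (hBB hx i).trans e3
  have ho : ‖∫ x in (Bn ι N m)ᶜ, F N x‖ ≤ B * Real.exp (-(c1 * N)) * I0 := by
    have hgi : Integrable (fun x : ι → ℝ => B * Real.exp (-(c1 * N)) *
        Real.exp (-(κ / 2 * ∑ i, x i ^ 2))) volume :=
      (gauss_int (ι := ι) (b := κ / 2) (by positivity)).const_mul _
    have f1 : ‖∫ x in (Bn ι N m)ᶜ, F N x‖ ≤ ∫ x in (Bn ι N m)ᶜ, B * Real.exp (-(c1 * N)) *
        Real.exp (-(κ / 2 * ∑ i, x i ^ 2)) := by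
      refine norm_integral_le_of_norm_le hgi.integrableOn ?_
      rw [ae_restrict_iff' hBnm.compl]
      refine Eventually.of_forall fun x hx => (h2 x).trans ?_
      rw [mul_assoc B (Real.exp _) (Real.exp _), ← Real.exp_add]
      refine mul_le_mul_of_nonneg_left (Real.exp_le_exp.2 ?_) hB
      have hx2 := hout x hx
      set S : ℝ := ∑ i, x i ^ 2
      have hS : 0 ≤ S := (sq_nonneg _).trans hx2
      have a1 : κ / 2 * N * (η / 2) ^ 2 ≤ κ / 2 * N * S := by gcongr
      have a2 : κ / 2 * S * 1 ≤ κ / 2 * S * N := by gcongr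
      have a3 : c1 ≤ κ * η ^ 2 / 8 := (min_le_right _ _).trans (min_le_left _ _)
      have a4 := mul_le_mul_of_nonneg_right a3 hN0.le
      linarith
    refine f1.trans ?_
    refine (setIntegral_le_integral hgi (Eventually.of_forall fun x => by positivity)).trans ?_
    rw [integral_const_mul]
  -- the difference of the boxes
  have hgc : ContinuousOn (fun x : ι → ℝ => g fun i => (x i : ℂ)) Bo := by
    have hmaps : Set.MapsTo (fun x : ι → ℝ => (fun i => (x i : ℂ))) Bo (Metric.ball (0 : ι → ℂ) R) := by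
      intro x hx
      rw [mem_ball_zero_iff, pi_norm_lt_iff hR]
      intro i
      rw [Complex.norm_real, Real.norm_eq_abs]
      have := hx i
      linarith
    have hqdo : DifferentiableOn ℂ q (Metric.ball 0 R) :=
      fun u hu => (hq u hu).differentiableAt.differentiableWithinAt
    have h8 : ContinuousOn g (Metric.ball 0 R) :=
      ((hqdo.const_mul (N : ℂ)).cexp.continuousOn).mul h7.continuousOn
    exact h8.comp (Continuous.continuousOn (by fun_prop)) hmaps
  have hgR : ∀ x ∈ Bo, ‖g fun i => (x i : ℂ)‖ ≤ B0 * Real.exp (-(κ' * N * ∑ i, x i ^ 2)) := by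
    intro x hx
    have hxR : ∀ i, |x i| < R := by
      intro i
      have := hx i
      linarith
    have h8 := hre x hxR
    have h9 : (fun i => (x i : ℂ)) ∈ Metric.ball (0 : ι → ℂ) R := by
      rw [mem_ball_zero_iff, pi_norm_lt_iff hR]
      intro i
      rw [Complex.norm_real, Real.norm_eq_abs]
      exact hxR i
    rw [hg]
    simp only
    rw [norm_mul, Complex.norm_exp, mul_comm]
    refine mul_le_mul (h6 _ h9) (Real.exp_le_exp.2 ?_) (Real.exp_nonneg _) hB0
    have e : ((N : ℂ) * q fun i => (x i : ℂ)).re = N * (q fun i => (x i : ℂ)).re := by simp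
    rw [e]
    calc (N : ℝ) * (q fun i => (x i : ℂ)).re ≤ N * (-κ' * ∑ i, x i ^ 2) :=
          mul_le_mul_of_nonneg_left h8 hN0.le
      _ = _ := by ring
  have hBoc : IsCompact Bo := by
    rw [hBopi]
    exact isCompact_univ_pi fun _ => isCompact_Icc
  have hgi : IntegrableOn (fun x : ι → ℝ => g fun i => (x i : ℂ)) Bo :=
    hgc.integrableOn_compact hBoc
  have hdif : ‖(∫ x in Bn ι N m, g fun i => (x i : ℂ)) - ∫ x in Bo, g fun i => (x i : ℂ)‖ ≤
      B0 * Real.exp (-(c1 * N)) * (volume : Measure (ι → ℝ)).real Bo := by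
    have f1 : (∫ x in Bo, g fun i => (x i : ℂ)) = (∫ x in Bn ι N m, g fun i => (x i : ℂ)) +
        ∫ x in Bo \ Bn ι N m, g fun i => (x i : ℂ) := by
      rw [← setIntegral_union Set.disjoint_sdiff_right (hBom.diff hBnm) (hgi.mono_set hBB)
        (hgi.mono_set Set.sdiff_subset), Set.union_sdiff_cancel hBB]
    rw [f1, sub_add_cancel_left, norm_neg]
    have f2 : ‖∫ x in Bo \ Bn ι N m, g fun i => (x i : ℂ)‖ ≤ B0 * Real.exp (-(c1 * N)) *
        (volume : Measure (ι → ℝ)).real (Bo \ Bn ι N m) := by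
      refine norm_setIntegral_le_of_norm_le_const
        ((measure_mono Set.sdiff_subset).trans_lt hBov.lt_top) fun x hx => ?_
      refine (hgR x hx.1).trans (mul_le_mul_of_nonneg_left (Real.exp_le_exp.2 ?_) hB0)
      have hx2 := hout x hx.2
      have a1 : κ' * N * (η / 2) ^ 2 ≤ κ' * N * ∑ i, x i ^ 2 := by gcongr
      have a3 : c1 ≤ κ' * η ^ 2 / 4 := (min_le_right _ _).trans (min_le_right _ _)
      have a4 := mul_le_mul_of_nonneg_right a3 hN0.le
      linarith
    refine f2.trans (mul_le_mul_of_nonneg_left ?_ (by positivity))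
    exact measureReal_mono Set.sdiff_subset hBov
  -- the conclusion
  have hall : ‖(∫ x, F N x) - ∫ x in Bo, g fun i => (x i : ℂ)‖ ≤ C1 * Real.exp (-(c1 * N)) := by
    rw [hsplit, hin]
    have f1 : (∫ x in Bn ι N m, g fun i => (st M N x i : ℂ)) + (∫ x in (Bn ι N m)ᶜ, F N x) -
        (∫ x in Bo, g fun i => (x i : ℂ)) = (∫ x in (Bn ι N m)ᶜ, F N x) +
        ((∫ x in Bn ι N m, g fun i => (st M N x i : ℂ)) - ∫ x in Bn ι N m, g fun i => (x i : ℂ)) +
        ((∫ x in Bn ι N m, g fun i => (x i : ℂ)) - ∫ x in Bo, g fun i => (x i : ℂ)) := by ring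
    rw [f1]
    have f2 : ‖(∫ x in Bn ι N m, g fun i => (st M N x i : ℂ)) -
        ∫ x in Bn ι N m, g fun i => (x i : ℂ)‖ ≤ |C0| * Real.exp (-(c1 * N)) := by
      refine h5.trans ?_
      refine (mul_le_mul_of_nonneg_right (le_abs_self _) (Real.exp_pos _).le).trans ?_
      refine mul_le_mul_of_nonneg_left (Real.exp_le_exp.2 ?_) (abs_nonneg _)
      have a3 : c1 ≤ c0 := min_le_left _ _
      have a4 := mul_le_mul_of_nonneg_right a3 hN0.le
      linarith
    refine (norm_add_le _ _).trans ((add_le_add ((norm_add_le _ _).trans (add_le_add ho f2))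
      hdif).trans (le_of_eq ?_))
    rw [hC1]
    ring
  rw [← mul_sub, norm_mul, norm_pow, Complex.norm_real, Real.norm_of_nonneg (Real.sqrt_nonneg _)]
  have hs : √(N:ℝ) ≤ N := by
    rw [Real.sqrt_le_left (by linarith)]
    nlinarith
  refine le_trans ?_ h1
  calc √(N:ℝ) ^ Fintype.card ι * ‖(∫ x, F N x) - ∫ x in Bo, g fun i => (x i : ℂ)‖
      ≤ (N:ℝ) ^ Fintype.card ι * (C1 * Real.exp (-(c1 * N))) :=
        mul_le_mul (pow_le_pow_left₀ (Real.sqrt_nonneg _) hs _) hall (norm_nonneg _) (by positivity)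
    _ = _ := by ring

end Pool.Agent.H811.VX
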