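import Pool.Agent.H811.VX.Lapx
import Pool.Agent.H760.MX.LpB
import Pool.Graph.R_pool_sql_team_seeded_3997aac3.Q162.HX.GX
import Pool.Graph.R_pool_sql_team_seeded_3997aac3.Q202.HX2.PX
import Pool.Graph.R_pool_sql_team_seeded_3997aac3.Q202.HX2.UA

/-!
# Partially augmented planar shadows: the integrand at complex points

Adapted from `Q176/HX/LPXA.lean`, `LPXB.lean`.
-/

set_option autoImplicit false

namespace Pool.Agent.H811.VX

open Finset Filter Topology MeasureTheory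
open Pool.Agent.Q99.HT
open Pool.Agent.Q99.HU.Q239 (vN Tv Jv Zv bv Rb PA_ne vN_eq vN_mem)
open Pool.Agent.Q99.KN (bb ct St LC S_LC S_GAM ez kz th jN)
open Pool.Agent.Q251.KN (fz Eg eg_norm sin_ne_of_im)
open Pool.Agent.Q99.HX
open Pool.Agent.Q176.HX (cb cT cJ cZ cb_real cT_real cJ_real cZ_real cb_norm cb_zero cb_an coord_an
  cZ_an xv_an phi_an PE_an cT_zero cJ_zero cZ_zero cb_smul fz_UA vN_Am LC_an)
open Pool.Agent.H760.MX (PhX GPX CrX kc PhX_line HsX GfX stv)

variable {c d : ℕ}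

theorem diffOn_prod {E ι : Type} [NormedAddCommGroup E] [NormedSpace ℂ E] (s : Finset ι)
    (f : ι → E → ℂ) (U : Set E) (h : ∀ i ∈ s, DifferentiableOn ℂ (f i) U) :
    DifferentiableOn ℂ (fun x => ∏ i ∈ s, f i x) U := by
  classical
  induction s using Finset.induction_on with
  | empty =>
    simp only [prod_empty]
    exact differentiableOn_const _
  | insert i s hi ih =>
    simp only [prod_insert hi]
    exact (h i (mem_insert_self _ _)).mul (ih fun j hj => h j (mem_insert_of_mem hj))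

/-- the exponent -/
noncomputable def qqX (X : Nw c d) (cc : Fin c → Bool) (w : Fin c → ℤ) (T : Fin d → ℂ)
    (J ζ : Fin c → ℂ) (v : X.Ix → ℂ) : ℂ :=
  PhX X cc w (cT X T v) (cJ X J v) (cZ X ζ v) - PhX X cc w T J ζ

/-- the amplitude -/
noncomputable def HHX (X : Nw c d) (cc : Fin c → Bool) (T : Fin d → ℂ) (J ζ : Fin c → ℂ) (N : ℕ)
    (v : X.Ix → ℂ) : ℂ :=
  ∏ s, ((if cc s then 1 else fz N (cZ X ζ v s)) *
    Am N (X.α s) (X.q0 s) (X.v (cT X T v) (cJ X J v) s) (cZ X ζ v s))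

section main
variable {X : Nw c d} {r κ K C0 : ℝ}

theorem qqX_an (hLC : S_LC) (hX : X.Okb) (hB : ∀ s, Blk (X.α s) r κ K C0) (cc : Fin c → Bool)
    (w : Fin c → ℤ) {T : Fin d → ℂ} {J ζ : Fin c → ℂ} {U : Set (X.Ix → ℂ)}
    (hU : ∀ v ∈ U, X.Rg r (cT X T v) (cJ X J v) (cZ X ζ v)) :
    AnalyticOnNhd ℂ (qqX X cc w T J ζ) U := by
  intro v hv
  unfold qqX PhX
  refine AnalyticAt.sub ?_ analyticAt_const
  refine Finset.analyticAt_fun_sum _ fun s _ => ?_
  have hz := cZ_an X ζ s v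
  refine AnalyticAt.add (AnalyticAt.add ?_ ?_) ?_
  · have h1 := hU v hv s
    refine AnalyticAt.fun_comp (g := fun p : (Fin 4 → ℂ) × ℂ => PE (X.α s) p.1 p.2)
      (f := fun v : X.Ix → ℂ => (X.v (cT X T v) (cJ X J v) s, cZ X ζ v s)) ?_
      (phi_an X T J ζ s Set.univ v (Set.mem_univ _))
    exact PE_an hLC (hX.fr s) (hB s) _ ⟨h1.1, mem_ball_zero_iff.2 h1.2⟩
  · exact (analyticAt_const.mul (hz.pow 2)).div_const
  · exact analyticAt_const.mul hz

theorem qqX_zero (X : Nw c d) (cc : Fin c → Bool) (w : Fin c → ℤ) (T : Fin d → ℂ)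
    (J ζ : Fin c → ℂ) : qqX X cc w T J ζ 0 = 0 := by
  unfold qqX
  rw [cT_zero, cJ_zero, cZ_zero, sub_self]

theorem qqX_fderiv (hLC : S_LC) (hX : X.Okb) (hB : ∀ s, Blk (X.α s) r κ K C0)
    (cc : Fin c → Bool) {w : Fin c → ℤ}
    {T : Fin d → ℂ} {J ζ : Fin c → ℂ} (hcr : CrX X cc w T J ζ) (hrg : X.Rg r T J ζ) :
    fderiv ℂ (qqX X cc w T J ζ) 0 = 0 := by
  have h0 : X.Rg r (cT X T 0) (cJ X J 0) (cZ X ζ 0) := by
    rw [cT_zero, cJ_zero, cZ_zero]
    exact hrg
  have han : AnalyticAt ℂ (qqX X cc w T J ζ) 0 :=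
    qqX_an hLC hX hB cc w (U := {0}) (fun v hv => by rw [Set.mem_singleton_iff.1 hv]; exact h0) 0 rfl
  have hd := han.differentiableAt.hasFDerivAt
  ext u
  have h1 : HasDerivAt (fun t : ℝ => qqX X cc w T J ζ ((t : ℂ) • u))
      (fderiv ℂ (qqX X cc w T J ζ) 0 u) 0 := by
    have h2 : HasDerivAt (fun t : ℝ => (t : ℂ) • u) u 0 := by
      have := (Complex.ofRealCLM.hasDerivAt (x := (0 : ℝ))).smul_const u
      simpa using this
    have h3 : HasFDerivAt (qqX X cc w T J ζ) ((fderiv ℂ (qqX X cc w T J ζ) 0).restrictScalars ℝ)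
        (((0 : ℝ) : ℂ) • u) := by
      simpa using hd.restrictScalars ℝ
    exact h3.comp_hasDerivAt (0 : ℝ) h2
  have ht : X.Rg r (fun j => T j + ((0 : ℝ) : ℂ) * u (.inl j)) (fun s => J s + ((0 : ℝ) : ℂ) * cb X u s)
      (fun s => ζ s + ((0 : ℝ) : ℂ) * u (.inr (.inr s))) := by
    simpa using hrg
  have h4 := (PhX_line cc hB w (T := T) (a := fun j => u (.inl j)) (J := J) (b := cb X u) (ζ := ζ)
    (g := fun s => u (.inr (.inr s))) (t := 0) ht 0 0 0).1
  simp only [Complex.ofReal_zero, zero_mul, add_zero] at h4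
  rw [hcr.eq _ _ _ (fun s hs => cb_zero X u hs)] at h4
  have h5 : HasDerivAt (fun t : ℝ => qqX X cc w T J ζ ((t : ℂ) • u)) 0 0 := by
    refine (h4.sub_const (PhX X cc w T J ζ)).congr_of_eventuallyEq
      (Eventually.of_forall fun t => ?_)
    simp only [qqX]
    congr 2
    · funext s
      unfold cJ
      rw [cb_smul]
  rw [h1.unique h5]
  rfl

/-- the amplitude has a uniform expansion -/
theorem HHX_UA (cc : Fin c → Bool) (hUA : S_UA)
    (hPX : ∀ s, UA (fun N (p : (Fin 4 → ℂ) × ℂ) => Am N (X.α s) (X.q0 s) p.1 p.2)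
      (Metric.ball (vC (X.α s)) (r / 2) ×ˢ Metric.ball 0 (r / 2)))
    (hB : ∀ s, Blk (X.α s) r κ K C0)
    {T : Fin d → ℂ} {J ζ : Fin c → ℂ} {U : Set (X.Ix → ℂ)} {y : ℝ} (hy : 0 < y)
    (hU : ∀ v ∈ U, X.Rg (r / 2) (cT X T v) (cJ X J v) (cZ X ζ v))
    (h2 : ∀ v ∈ U, ∀ s, cc s = false → y ≤ (cZ X ζ v s).im) :
    UA (HHX X cc T J ζ) U := by
  have h5 := hUA.2.2.2.2 (X.Ix → ℂ) (Fin c) univ
    (fun s N v => (if cc s then 1 else fz N (cZ X ζ v s)) *
    Am N (X.α s) (X.q0 s) (X.v (cT X T v) (cJ X J v) s) (cZ X ζ v s)) U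
  refine h5 fun s _ => ?_
  refine hUA.1 (X.Ix → ℂ) _ _ U ?_ ?_
  · cases hc : cc s
    · simp only [Bool.false_eq_true, if_false]
      refine fz_UA hUA X ζ s U hy (fun v hv => ?_) fun v hv => h2 v hv s hc
      have h6 := (hU v hv s).2
      linarith [(hB s).r1]
    · simp only [if_true]
      exact hUA.2.2.1 (X.Ix → ℂ) (fun _ => 1) U 1 (fun _ _ => analyticAt_const)
        (fun _ _ => by rw [norm_one])
  · exact hUA.2.1 (X.Ix → ℂ) ((Fin 4 → ℂ) × ℂ) (fun N p => Am N (X.α s) (X.q0 s) p.1 p.2)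
      (fun v => (X.v (cT X T v) (cJ X J v) s, cZ X ζ v s)) U _ (hPX s) (phi_an X T J ζ s U)
      (fun v hv => ⟨(hU v hv s).1, mem_ball_zero_iff.2 (hU v hv s).2⟩)

theorem HsX_eq (X : Nw c d) (cc : Fin c → Bool) (N : ℕ) (T : Fin d → ℂ) (J ζ : Fin c → ℂ)
    (s : Fin c) : HsX X cc N T J ζ s =
      (if cc s then 1 else fz N (ζ s)) * Am N (X.α s) (X.q0 s) (X.v T J s) (ζ s) := by
  unfold HsX Rb Am
  rw [← vN_Am]
  have hP := PA_ne (α := X.α s) (vN X N T J s)
  have e1 : Complex.exp (-(N * PE (X.α s) (vN X N T J s) (ζ s))) =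
      (Complex.exp (N * PE (X.α s) (vN X N T J s) (ζ s)))⁻¹ := Complex.exp_neg _
  have e2 : Complex.exp (N * (PE (X.α s) (vN X N T J s) (ζ s) - PE (X.α s) (X.v T J s) (ζ s))) =
      Complex.exp (N * PE (X.α s) (vN X N T J s) (ζ s)) * Complex.exp (-(N * PE (X.α s) (X.v T J s) (ζ s))) := by
    rw [← Complex.exp_add]
    congr 1
    ring
  have hE1 := Complex.exp_ne_zero (N * PE (X.α s) (vN X N T J s) (ζ s))
  rw [e1, e2]
  congr 1
  generalize Complex.exp (N * PE (X.α s) (vN X N T J s) (ζ s)) = E1 at *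
  generalize Complex.exp (-(N * PE (X.α s) (X.v T J s) (ζ s))) = E2 at *
  generalize PA (X.α s) (vN X N T J s) = P at *
  field_simp

theorem HHX_real (X : Nw c d) (cc : Fin c → Bool) (N : ℕ) (T : Fin d → ℂ) (J ζ : Fin c → ℂ)
    (v : X.Ix → ℝ) :
    HHX X cc T J ζ N (fun i => (v i : ℂ)) = ∏ s, HsX X cc N (Tv X T v) (Jv X J v) (Zv X ζ v) s := by
  unfold HHX
  rw [cT_real, cJ_real, cZ_real]
  exact prod_congr rfl fun s _ => (HsX_eq X cc N _ _ _ s).symm

theorem GfX_real (X : Nw c d) (cc : Fin c → Bool) (N : ℕ) (w : Fin c → ℤ) (T : Fin d → ℂ)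
    (J ζ : Fin c → ℂ)
    (v : X.Ix → ℝ) : Complex.exp (N * qqX X cc w T J ζ (fun i => (v i : ℂ))) *
      HHX X cc T J ζ N (fun i => (v i : ℂ)) = GfX X cc N w T J ζ v := by
  unfold GfX qqX
  rw [HHX_real, cT_real, cJ_real, cZ_real]

/-- differentiability of the amplitude -/
theorem HHX_diff (cc : Fin c → Bool) (hLC : S_LC) (hX : X.Okb)
    (hB : ∀ s, Blk (X.α s) r κ K C0) {T : Fin d → ℂ} {J ζ : Fin c → ℂ} {U : Set (X.Ix → ℂ)}
    (hU : ∀ v ∈ U, X.Rg (r / 2) (cT X T v) (cJ X J v) (cZ X ζ v))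
    (h2 : ∀ v ∈ U, ∀ s, cc s = false → 0 < (cZ X ζ v s).im) {N : ℕ} (hN1 : 1 ≤ N)
    (hNq : ∀ s, ‖Pool.Agent.Q99.HU.Q239.q4 X s‖ / N < r / 2) :
    DifferentiableOn ℂ (HHX X cc T J ζ N) U := by
  have hN0 : (0 : ℝ) < N := by exact_mod_cast hN1
  have hZ : ∀ s, Differentiable ℂ fun v : X.Ix → ℂ => cZ X ζ v s := by
    intro s
    unfold cZ
    fun_prop
  have hV : ∀ s, Differentiable ℂ fun v : X.Ix → ℂ => X.v (cT X T v) (cJ X J v) s := fun s v =>
    (xv_an X T J s v).differentiableAt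
  have hVN : ∀ s, Differentiable ℂ fun v : X.Ix → ℂ => vN X N (cT X T v) (cJ X J v) s := by
    intro s
    have : (fun v : X.Ix → ℂ => vN X N (cT X T v) (cJ X J v) s) =
        fun v => X.v (cT X T v) (cJ X J v) s + (-(1 / (N : ℂ))) • Pool.Agent.Q99.HU.Q239.q4 X s := by
      funext v
      rw [vN_eq]
    rw [this]
    exact (hV s).add (differentiable_const _)
  unfold HHX
  refine diffOn_prod univ _ U fun s _ => ?_
  have hr := (hB s).r0
  refine DifferentiableOn.mul ?_ ?_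
  · cases hc : cc s
    · simp only [Bool.false_eq_true, if_false]
      intro v hv
      have hne : 1 - Eg N (cZ X ζ v s) ≠ 0 := by
        intro h
        have h3 : ‖Eg N (cZ X ζ v s)‖ = 1 := by
          have : Eg N (cZ X ζ v s) = 1 := (sub_eq_zero.1 h).symm
          rw [this, norm_one]
        rw [eg_norm] at h3
        have h4 := h2 v hv s hc
        have h5 : Real.exp (-(Real.pi * N * (cZ X ζ v s).im)) < 1 := by
          rw [Real.exp_lt_one_iff]
          have := Real.pi_pos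
          have : 0 < Real.pi * N * (cZ X ζ v s).im := by positivity
          linarith
        linarith
      have hz : DifferentiableAt ℂ (fz N) (cZ X ζ v s) := by
        have e1 : fz N = fun Z : ℂ => Real.pi / Complex.I * Complex.sin (Real.pi * Z) *
            ((1 - Complex.exp (Real.pi * Complex.I * (N * Z - N + 1))) ^ 2)⁻¹ := by
          funext Z
          unfold fz Eg
          rw [div_eq_mul_inv]
        rw [e1]
        refine DifferentiableAt.mul (by fun_prop) (DifferentiableAt.inv (by fun_prop) ?_)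
        exact pow_ne_zero 2 hne
      exact (hz.comp v (hZ s v)).differentiableWithinAt
    · simp only [if_true]
      exact differentiableOn_const _
  · unfold Am
    refine DifferentiableOn.mul (DifferentiableOn.mul (differentiableOn_const _) ?_) ?_
    · refine DifferentiableOn.comp (g := fun p : (Fin 4 → ℂ) × ℂ => PB N (X.α s) p.1 p.2)
        (f := fun v : X.Ix → ℂ => (![X.v (cT X T v) (cJ X J v) s 0 - X.q0 s 0 / N,
          X.v (cT X T v) (cJ X J v) s 1 - X.q0 s 1 / N,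
          X.v (cT X T v) (cJ X J v) s 2 - X.q0 s 2 / N, X.v (cT X T v) (cJ X J v) s 3], cZ X ζ v s))
        ((hB s).diff N hN1) ?_ fun v hv => ?_
      · refine (Differentiable.prodMk ?_ (hZ s)).differentiableOn
        simp only [← vN_Am]
        exact hVN s
      · simp only [← vN_Am]
        have h1 := hU v hv
        refine Set.mk_mem_prod (vN_mem h1 (hNq s)) ?_
        rw [mem_ball_zero_iff]
        exact (h1 s).2.trans (by linarith)
    · have h3 : DifferentiableOn ℂ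
          (fun v : X.Ix → ℂ => PE (X.α s) (X.v (cT X T v) (cJ X J v) s) (cZ X ζ v s)) U := by
        refine DifferentiableOn.comp (g := fun p : (Fin 4 → ℂ) × ℂ => PE (X.α s) p.1 p.2)
          (f := fun v : X.Ix → ℂ => (X.v (cT X T v) (cJ X J v) s, cZ X ζ v s))
          (fun p hp => (PE_an hLC (hX.fr s) (hB s) p hp).differentiableAt.differentiableWithinAt)
          ((hV s).prodMk (hZ s)).differentiableOn fun v hv => ?_
        have h1 := hU v hv s
        exact Set.mk_mem_prod (Metric.ball_subset_ball (by linarith) h1.1)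
          (mem_ball_zero_iff.2 (h1.2.trans (by linarith)))
      exact ((h3.const_mul (N : ℂ)).neg).cexp

end main

end Pool.Agent.H811.VX
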